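import Pool.Agent.KS6_98.PiDens

/-!
# An Assouad type lower bound for arbitrary (not necessarily measurable) estimators
-/

set_option autoImplicit false
set_option linter.unusedSectionVars false
set_option linter.style.haveILetI false

open MeasureTheory Set
open scoped ENNReal

namespace Pool.Agent.KS6_98.Assouad

/-- Hamming distance -/
def ham {ι : Type*} [Fintype ι] (b b' : ι → Bool) : ℕ := (Finset.univ.filter (fun p => b p ≠ b' p)).card

theorem sum_pow_ham {ι : Type*} [Fintype ι] [DecidableEq ι] (b0 : ι → Bool) (t : ℝ) :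
    ∑ b : ι → Bool, t ^ ham b b0 = (1 + t) ^ Fintype.card ι := by
  have h1 : ∀ b : ι → Bool, t ^ ham b b0 = ∏ p, (if b p ≠ b0 p then t else 1) := by
    intro b
    rw [ham, Finset.prod_ite, Finset.prod_const, Finset.prod_const_one, mul_one]
  simp_rw [h1]
  have h2 := Finset.prod_univ_sum (fun _ : ι => (Finset.univ : Finset Bool))
    (fun p (v : Bool) => (if v ≠ b0 p then t else (1 : ℝ)))
  rw [Fintype.piFinset_univ] at h2
  rw [← h2]
  have h3 : ∀ p : ι, ∑ v : Bool, (if v ≠ b0 p then t else (1 : ℝ)) = 1 + t := by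
    intro p
    rw [Fintype.sum_bool]
    cases b0 p <;> simp [add_comm]
  simp_rw [h3]
  simp

/-- a family of pairwise Hamming distance at most `M` in `{0,1}^{16 M}` is small -/
theorem card_le {ι : Type*} [Fintype ι] [DecidableEq ι] (M : ℕ) (hcard : Fintype.card ι = 16 * M)
    (S : Finset (ι → Bool)) (hS : ∀ b ∈ S, ∀ b' ∈ S, ham b b' ≤ M) :
    (S.card : ℝ) ≤ (8 * (9 / 8) ^ 16) ^ M := by
  rcases S.eq_empty_or_nonempty with rfl | ⟨b0, hb0⟩
  · simp; positivity
  · have h1 : (S.card : ℝ) ≤ ∑ b ∈ S, 8 ^ M * (1 / 8 : ℝ) ^ ham b b0 := by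
      rw [Finset.card_eq_sum_ones]
      push_cast
      apply Finset.sum_le_sum
      intro b hb
      have h := hS b hb b0 hb0
      rw [one_div, inv_pow, ← div_eq_mul_inv, le_div_iff₀ (by positivity), one_mul]
      exact pow_le_pow_right₀ (by norm_num) h
    refine h1.trans ?_
    calc ∑ b ∈ S, 8 ^ M * (1 / 8 : ℝ) ^ ham b b0
        ≤ ∑ b : ι → Bool, 8 ^ M * (1 / 8 : ℝ) ^ ham b b0 := by
          apply Finset.sum_le_sum_of_subset_of_nonneg (Finset.subset_univ _)
          intro _ _ _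
          positivity
      _ = 8 ^ M * (9 / 8) ^ (16 * M) := by
          rw [← Finset.mul_sum, sum_pow_ham, hcard]
          norm_num
      _ = (8 * (9 / 8) ^ 16) ^ M := by
          rw [mul_pow, pow_mul]

theorem numeric (M : ℕ) (hM : 1 ≤ M) :
    16 * Real.exp 1 ^ M * (8 * (9 / 8) ^ 16 : ℝ) ^ M < (2 : ℝ) ^ (16 * M) := by
  have he : Real.exp 1 < 2.7182818286 := Real.exp_one_lt_d9
  obtain ⟨k, rfl⟩ : ∃ k, M = k + 1 := ⟨M - 1, by omega⟩
  rw [mul_assoc, ← mul_pow, pow_mul]
  have h0 : (0:ℝ) < Real.exp 1 := Real.exp_pos 1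
  have h1 : Real.exp 1 * (8 * (9 / 8) ^ 16 : ℝ) < 144 := by
    have : (8 * (9 / 8) ^ 16 : ℝ) < 52.7 := by norm_num
    nlinarith
  have h2 : (Real.exp 1 * (8 * (9 / 8) ^ 16 : ℝ)) ^ k ≤ ((2:ℝ) ^ 16) ^ k := by
    gcongr
    linarith [show (144 : ℝ) ≤ 2 ^ 16 by norm_num]
  have h3 : 0 < ((2:ℝ) ^ 16) ^ k := by positivity
  calc 16 * (Real.exp 1 * (8 * (9 / 8) ^ 16 : ℝ)) ^ (k + 1)
      = 16 * (Real.exp 1 * (8 * (9 / 8) ^ 16 : ℝ)) * (Real.exp 1 * (8 * (9 / 8) ^ 16 : ℝ)) ^ k := by
        rw [pow_succ]; ring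
    _ ≤ 16 * (Real.exp 1 * (8 * (9 / 8) ^ 16 : ℝ)) * ((2:ℝ) ^ 16) ^ k := by gcongr
    _ < 2 ^ 16 * ((2:ℝ) ^ 16) ^ k := by
        gcongr
        have : 16 * (Real.exp 1 * (8 * (9 / 8) ^ 16 : ℝ)) < 16 * 144 := by linarith
        refine this.trans ?_
        norm_num
    _ = ((2:ℝ) ^ 16) ^ (k + 1) := by rw [pow_succ]; ring

theorem amgm (L : ℝ≥0∞) (E : ℝ) (hE : 0 < E) :
    L ≤ ENNReal.ofReal (1 / (8 * E)) * L ^ 2 + ENNReal.ofReal (2 * E) := by
  by_cases hL : L = ∞
  · subst hL
    have h1 : ENNReal.ofReal (1 / (8 * E)) ≠ 0 := by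
      rw [Ne, ENNReal.ofReal_eq_zero, not_le]
      positivity
    rw [ENNReal.top_pow (by norm_num), ENNReal.mul_top h1]
    simp
  · lift L to NNReal using hL
    have h2 : ((L : NNReal) : ℝ≥0∞) = ENNReal.ofReal (L : ℝ) := by simp
    rw [h2, ← ENNReal.ofReal_pow (NNReal.coe_nonneg L), ← ENNReal.ofReal_mul (by positivity),
      ← ENNReal.ofReal_add (by positivity) (by positivity)]
    apply ENNReal.ofReal_le_ofReal
    have h3 : 1 / (8 * E) * (L : ℝ) ^ 2 + 2 * E - L = ((L : ℝ) - 4 * E) ^ 2 / (8 * E) := by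
      field_simp
      ring
    have h4 : 0 ≤ ((L : ℝ) - 4 * E) ^ 2 / (8 * E) := by positivity
    linarith

section Main

variable {X : Type*} [MeasurableSpace X] (ν : Measure X) {ι : Type*} [Fintype ι] [DecidableEq ι]
  (C : ι → Bool → Set X) (a c : ℝ) (f : (ι → Bool) → X → ℝ)

/-- the likelihood ratio with respect to the average -/
noncomputable def uu (C : ι → Bool → Set X) (b : ι → Bool) : X → ℝ≥0∞ := by
  classical
  exact fun z => if z ∈ ⋃ p, C p (b p) then 2 else if z ∈ ⋃ p, C p (!b p) then 0 else 1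

noncomputable def qq (f : (ι → Bool) → X → ℝ) : X → ℝ≥0∞ :=
  fun z => (ENNReal.ofReal (f (fun _ => true) z) + ENNReal.ofReal (f (fun _ => false) z)) / 2

theorem measurable_uu (hC : ∀ p t, MeasurableSet (C p t)) (b : ι → Bool) :
    Measurable (uu C b) := by
  unfold uu
  apply Measurable.ite (MeasurableSet.iUnion fun p => hC _ _) measurable_const
  apply Measurable.ite (MeasurableSet.iUnion fun p => hC _ _) measurable_const measurable_const

theorem measurable_qq (hfm : ∀ b, Measurable (f b)) : Measurable (qq f) := by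
  unfold qq
  apply Measurable.div_const
  exact (hfm _).ennreal_ofReal.add (hfm _).ennreal_ofReal

theorem qq_on (hfc : ∀ b p z, z ∈ C p (b p) → f b z = c) (hfz : ∀ b p z, z ∈ C p (!b p) → f b z = 0)
    (p : ι) (t : Bool) (z : X) (hz : z ∈ C p t) : qq f z = ENNReal.ofReal c / 2 := by
  unfold qq
  cases t
  · rw [hfc (fun _ => false) p z hz, hfz (fun _ => true) p z hz]
    simp
  · rw [hfc (fun _ => true) p z hz, hfz (fun _ => false) p z hz]
    simp

theorem f_eq (hdisj : ∀ p t p' t', (p, t) ≠ (p', t') → Disjoint (C p t) (C p' t'))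
    (hfc : ∀ b p z, z ∈ C p (b p) → f b z = c)
    (hfz : ∀ b p z, z ∈ C p (!b p) → f b z = 0)
    (hfo : ∀ b b' z, (∀ p t, z ∉ C p t) → f b z = f b' z) (b : ι → Bool) (z : X) :
    ENNReal.ofReal (f b z) = qq f z * uu C b z := by
  by_cases h1 : z ∈ ⋃ p, C p (b p)
  · obtain ⟨p, hp⟩ := Set.mem_iUnion.mp h1
    rw [qq_on C c f hfc hfz p _ z hp, hfc b p z hp]
    unfold uu
    rw [if_pos h1]
    rw [ENNReal.div_mul_cancel (by norm_num) (by norm_num)]
  · by_cases h2 : z ∈ ⋃ p, C p (!b p)
    · obtain ⟨p, hp⟩ := Set.mem_iUnion.mp h2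
      rw [hfz b p z hp]
      unfold uu
      rw [if_neg h1, if_pos h2]
      simp
    · have hno : ∀ p t, z ∉ C p t := by
        intro p t hz
        by_cases ht : t = b p
        · exact h1 (Set.mem_iUnion.mpr ⟨p, ht ▸ hz⟩)
        · have : t = !b p := by
            cases t <;> cases hb : b p <;> simp_all
          exact h2 (Set.mem_iUnion.mpr ⟨p, this ▸ hz⟩)
      unfold uu qq
      rw [if_neg h1, if_neg h2, mul_one, hfo (fun _ => true) b z hno, hfo (fun _ => false) b z hno]
      rw [← two_mul, ENNReal.mul_div_right_comm, ENNReal.div_self (by norm_num) (by norm_num),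
        one_mul]

theorem lintegral_qq (hfm : ∀ b, Measurable (f b)) (hint : ∀ b, ∫⁻ z, ENNReal.ofReal (f b z) ∂ν = 1) :
    ∫⁻ z, qq f z ∂ν = 1 := by
  unfold qq
  simp_rw [div_eq_mul_inv]
  have hm1 := (hfm (fun _ => true)).ennreal_ofReal
  have hm2 := (hfm (fun _ => false)).ennreal_ofReal
  rw [lintegral_mul_const _ (by fun_prop), lintegral_add_left hm1, hint, hint]
  rw [one_add_one_eq_two, ENNReal.mul_inv_cancel (by norm_num) (by norm_num)]

theorem second_moment (hC : ∀ p t, MeasurableSet (C p t))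
    (hdisj : ∀ p t p' t', (p, t) ≠ (p', t') → Disjoint (C p t) (C p' t'))
    (ha : 0 < a) (hc : 0 < c) (hν : ∀ p t, ν (C p t) = ENNReal.ofReal a)
    (hfm : ∀ b, Measurable (f b)) (hfc : ∀ b p z, z ∈ C p (b p) → f b z = c)
    (hfz : ∀ b p z, z ∈ C p (!b p) → f b z = 0)
    (hfo : ∀ b b' z, (∀ p t, z ∉ C p t) → f b z = f b' z)
    (hint : ∀ b, ∫⁻ z, ENNReal.ofReal (f b z) ∂ν = 1) (b : ι → Bool) :
    ∫⁻ z, (uu C b z) ^ 2 ∂(ν.withDensity (qq f)) ≤ ENNReal.ofReal (1 + Fintype.card ι * (c * a)) := by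
  classical
  have hqm := measurable_qq f hfm
  have hum := measurable_uu C hC b
  have h1 : ∀ z, (uu C b z) ^ 2 ≤ uu C b z + ∑ p, (C p (b p)).indicator (fun _ => (2 : ℝ≥0∞)) z := by
    intro z
    unfold uu
    by_cases h1 : z ∈ ⋃ p, C p (b p)
    · rw [if_pos h1]
      obtain ⟨p, hp⟩ := Set.mem_iUnion.mp h1
      have : (2 : ℝ≥0∞) ≤ ∑ p, (C p (b p)).indicator (fun _ => (2 : ℝ≥0∞)) z := by
        calc (2 : ℝ≥0∞) = (C p (b p)).indicator (fun _ => (2 : ℝ≥0∞)) z := by
              rw [Set.indicator_of_mem hp]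
          _ ≤ _ := Finset.single_le_sum (f := fun p => (C p (b p)).indicator (fun _ => (2 : ℝ≥0∞)) z)
            (fun _ _ => bot_le) (Finset.mem_univ p)
      calc (2 : ℝ≥0∞) ^ 2 = 2 + 2 := by norm_num
        _ ≤ _ := by gcongr
    · rw [if_neg h1]
      split_ifs <;> simp
  have h2 : ∀ p t, (ν.withDensity (qq f)) (C p t) = ENNReal.ofReal (c / 2 * a) := by
    intro p t
    rw [withDensity_apply _ (hC p t)]
    rw [setLIntegral_congr_fun (hC p t) (fun z hz => qq_on C c f hfc hfz p t z hz)]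
    rw [setLIntegral_const, hν, ENNReal.ofReal_mul (by positivity),
      ENNReal.ofReal_div_of_pos (by norm_num)]
    simp
  have h3 : ∫⁻ z, uu C b z ∂(ν.withDensity (qq f)) = 1 := by
    rw [lintegral_withDensity_eq_lintegral_mul _ hqm hum]
    rw [← hint b]
    apply lintegral_congr
    intro z
    rw [f_eq C c f hdisj hfc hfz hfo b z]
    rfl
  calc ∫⁻ z, (uu C b z) ^ 2 ∂(ν.withDensity (qq f))
      ≤ ∫⁻ z, (uu C b z + ∑ p, (C p (b p)).indicator (fun _ => (2 : ℝ≥0∞)) z) ∂(ν.withDensity (qq f)) :=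
        lintegral_mono h1
    _ = 1 + ∑ p : ι, 2 * ENNReal.ofReal (c / 2 * a) := by
        rw [lintegral_add_left hum, h3, lintegral_finsetSum]
        · congr 1
          apply Finset.sum_congr rfl
          intro p _
          rw [lintegral_indicator_const (hC _ _), h2]
        · intro p _
          exact measurable_const.indicator (hC _ _)
    _ = ENNReal.ofReal (1 + Fintype.card ι * (c * a)) := by
        rw [Finset.sum_const, Finset.card_univ, nsmul_eq_mul]
        rw [show (2 : ℝ≥0∞) = ENNReal.ofReal 2 by simp, ← ENNReal.ofReal_mul (by norm_num),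
          show ((Fintype.card ι : ℕ) : ℝ≥0∞) = ENNReal.ofReal (Fintype.card ι : ℝ) by simp,
          ← ENNReal.ofReal_mul (by positivity), show (1 : ℝ≥0∞) = ENNReal.ofReal 1 by simp,
          ← ENNReal.ofReal_add (by norm_num) (by positivity)]
        congr 1
        ring

theorem ham_le_of_close (M : ℕ) (hC : ∀ p t, MeasurableSet (C p t))
    (hdisj : ∀ p t p' t', (p, t) ≠ (p', t') → Disjoint (C p t) (C p' t'))
    (ha : 0 < a) (hc : 0 < c) (hν : ∀ p t, ν (C p t) = ENNReal.ofReal a)
    (hfm : ∀ b, Measurable (f b)) (hfc : ∀ b p z, z ∈ C p (b p) → f b z = c)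
    (hfz : ∀ b p z, z ∈ C p (!b p) → f b z = 0)
    (g : X → ℝ) (hg : Measurable g) (b b' : ι → Bool)
    (h1 : ∫⁻ z in ⋃ p, ⋃ t, C p t, ENNReal.ofReal ((√(g z) - √(f b z)) ^ 2) ∂ν ≤
      ENNReal.ofReal (M * c * a / 2))
    (h2 : ∫⁻ z in ⋃ p, ⋃ t, C p t, ENNReal.ofReal ((√(g z) - √(f b' z)) ^ 2) ∂ν ≤
      ENNReal.ofReal (M * c * a / 2)) : ham b b' ≤ M := by
  classical
  set U : Set X := ⋃ p, ⋃ t, C p t with hU
  have hUm : MeasurableSet U := MeasurableSet.iUnion fun p => MeasurableSet.iUnion fun t => hC p t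
  have hm : ∀ b, Measurable (fun z => ENNReal.ofReal ((√(g z) - √(f b z)) ^ 2)) := by
    intro b
    apply Measurable.ennreal_ofReal
    exact ((hg.sqrt).sub ((hfm b).sqrt)).pow_const 2
  have hup : ∫⁻ z in U, ENNReal.ofReal ((√(f b z) - √(f b' z)) ^ 2) ∂ν ≤
      ENNReal.ofReal (2 * M * c * a) := by
    calc ∫⁻ z in U, ENNReal.ofReal ((√(f b z) - √(f b' z)) ^ 2) ∂ν
        ≤ ∫⁻ z in U, (2 * ENNReal.ofReal ((√(g z) - √(f b z)) ^ 2) +
            2 * ENNReal.ofReal ((√(g z) - √(f b' z)) ^ 2)) ∂ν := by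
          apply lintegral_mono
          intro z
          simp only
          rw [show (2 : ℝ≥0∞) = ENNReal.ofReal 2 by simp, ← ENNReal.ofReal_mul (by norm_num),
            ← ENNReal.ofReal_mul (by norm_num), ← ENNReal.ofReal_add (by positivity) (by positivity)]
          apply ENNReal.ofReal_le_ofReal
          nlinarith [sq_nonneg ((√(g z) - √(f b z)) + (√(g z) - √(f b' z)))]
      _ = 2 * ∫⁻ z in U, ENNReal.ofReal ((√(g z) - √(f b z)) ^ 2) ∂ν +
            2 * ∫⁻ z in U, ENNReal.ofReal ((√(g z) - √(f b' z)) ^ 2) ∂ν := by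
          rw [lintegral_add_left ((hm b).const_mul 2), lintegral_const_mul _ (hm b),
            lintegral_const_mul _ (hm b')]
      _ ≤ 2 * ENNReal.ofReal (M * c * a / 2) + 2 * ENNReal.ofReal (M * c * a / 2) := by gcongr
      _ = ENNReal.ofReal (2 * M * c * a) := by
          rw [show (2 : ℝ≥0∞) = ENNReal.ofReal 2 by simp, ← ENNReal.ofReal_mul (by norm_num),
            ← ENNReal.ofReal_add (by positivity) (by positivity)]
          congr 1
          ring
  set g2 : X → ℝ≥0∞ := fun z => ENNReal.ofReal ((√(f b z) - √(f b' z)) ^ 2) with hg2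
  set κ : Measure X := ν.withDensity g2 with hκ
  set F : Finset (ι × Bool) := (Finset.univ.filter (fun p => b p ≠ b' p)) ×ˢ Finset.univ with hF
  have hpw : Set.PairwiseDisjoint (↑F) (fun x : ι × Bool => C x.1 x.2) := by
    intro x _ y _ hxy
    exact hdisj _ _ _ _ (by simpa using hxy)
  have hsum : κ (⋃ x ∈ F, C x.1 x.2) = ∑ x ∈ F, κ (C x.1 x.2) :=
    measure_biUnion_finset hpw (fun x _ => hC _ _)
  have hval : ∀ x ∈ F, κ (C x.1 x.2) = ENNReal.ofReal (c * a) := by
    intro x hx
    rw [hF, Finset.mem_product, Finset.mem_filter] at hx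
    have hne : b x.1 ≠ b' x.1 := hx.1.2
    rw [hκ, withDensity_apply _ (hC _ _)]
    have h3 : ∀ z ∈ C x.1 x.2, g2 z = ENNReal.ofReal c := by
      intro z hz
      simp only [hg2]
      congr 1
      by_cases hb : x.2 = b x.1
      · have hb' : x.2 = !b' x.1 := by
          cases h5 : x.2 <;> cases h6 : b x.1 <;> cases h7 : b' x.1 <;> simp_all
        rw [hfc b x.1 z (hb ▸ hz), hfz b' x.1 z (hb' ▸ hz)]
        rw [Real.sqrt_zero, sub_zero, Real.sq_sqrt hc.le]
      · have hb1 : x.2 = !b x.1 := by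
          cases h5 : x.2 <;> cases h6 : b x.1 <;> simp_all
        have hb' : x.2 = b' x.1 := by
          cases h5 : x.2 <;> cases h6 : b x.1 <;> cases h7 : b' x.1 <;> simp_all
        rw [hfc b' x.1 z (hb' ▸ hz), hfz b x.1 z (hb1 ▸ hz)]
        rw [Real.sqrt_zero, zero_sub, neg_sq, Real.sq_sqrt hc.le]
    rw [setLIntegral_congr_fun (hC _ _) h3, setLIntegral_const, hν, ENNReal.ofReal_mul hc.le]
  have hlow : (F.card : ℝ≥0∞) * ENNReal.ofReal (c * a) ≤ ∫⁻ z in U, g2 z ∂ν := by
    rw [← withDensity_apply _ hUm, ← hκ]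
    calc (F.card : ℝ≥0∞) * ENNReal.ofReal (c * a) = ∑ x ∈ F, κ (C x.1 x.2) := by
          rw [Finset.sum_congr rfl hval, Finset.sum_const, nsmul_eq_mul]
      _ = κ (⋃ x ∈ F, C x.1 x.2) := hsum.symm
      _ ≤ κ U := by
          apply measure_mono
          intro z hz
          rw [Set.mem_iUnion₂] at hz
          obtain ⟨x, _, hz⟩ := hz
          exact Set.mem_iUnion.mpr ⟨x.1, Set.mem_iUnion.mpr ⟨x.2, hz⟩⟩
  have hFc : F.card = 2 * ham b b' := by
    rw [hF, Finset.card_product, ham]
    simp [mul_comm]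
  have hfin := hlow.trans hup
  rw [show ((F.card : ℕ) : ℝ≥0∞) = ENNReal.ofReal (F.card : ℝ) by simp,
    ← ENNReal.ofReal_mul (by positivity), ENNReal.ofReal_le_ofReal_iff (by positivity), hFc] at hfin
  push_cast at hfin
  have h5 : (ham b b' : ℝ) * (2 * (c * a)) ≤ M * (2 * (c * a)) := by linarith
  have h6 := le_of_mul_le_mul_right h5 (by positivity)
  exact_mod_cast h6

/-- **Assouad / volume lower bound**, for an arbitrary estimator `T` (no joint measurability). -/
theorem exists_bad [SigmaFinite ν] (M : ℕ) (hM : 1 ≤ M) (hcard : Fintype.card ι = 16 * M)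
    (hC : ∀ p t, MeasurableSet (C p t))
    (hdisj : ∀ p t p' t', (p, t) ≠ (p', t') → Disjoint (C p t) (C p' t'))
    (ha : 0 < a) (hc : 0 < c) (hν : ∀ p t, ν (C p t) = ENNReal.ofReal a)
    (hfm : ∀ b, Measurable (f b)) (hfc : ∀ b p z, z ∈ C p (b p) → f b z = c)
    (hfz : ∀ b p z, z ∈ C p (!b p) → f b z = 0)
    (hfo : ∀ b b' z, (∀ p t, z ∉ C p t) → f b z = f b' z)
    (hint : ∀ b, ∫⁻ z, ENNReal.ofReal (f b z) ∂ν = 1)
    (n : ℕ) (hn : n * (c * a) ≤ 1 / 16) (T : (Fin n → X) → X → ℝ) (hT : ∀ x, Measurable (T x)) :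
    ∃ b : ι → Bool, (3 / 4 : ℝ≥0∞) ≤
      Measure.pi (fun _ : Fin n => ν.withDensity (fun z => ENNReal.ofReal (f b z)))
        {x | ENNReal.ofReal (M * c * a / 2) <
          ∫⁻ z in ⋃ p, ⋃ t, C p t, ENNReal.ofReal ((√(T x z) - √(f b z)) ^ 2) ∂ν} := by
  classical
  by_contra hcon
  push Not at hcon
  set P : (ι → Bool) → Measure (Fin n → X) := fun b =>
    Measure.pi (fun _ : Fin n => ν.withDensity (fun z => ENNReal.ofReal (f b z))) with hP
  have hprob : ∀ b, IsProbabilityMeasure (ν.withDensity (fun z => ENNReal.ofReal (f b z))) := by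
    intro b
    constructor
    rw [withDensity_apply _ MeasurableSet.univ, setLIntegral_univ, hint b]
  set μq : Measure X := ν.withDensity (qq f) with hμq
  have hμqp : IsProbabilityMeasure μq := by
    constructor
    rw [hμq, withDensity_apply _ MeasurableSet.univ, setLIntegral_univ, lintegral_qq ν f hfm hint]
  set Q : Measure (Fin n → X) := Measure.pi (fun _ : Fin n => μq) with hQ
  have hqm := measurable_qq f hfm
  have hum := fun b => measurable_uu C hC b
  have hdens : ∀ b, ν.withDensity (fun z => ENNReal.ofReal (f b z)) = μq.withDensity (uu C b) := by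
    intro b
    rw [hμq, ← withDensity_mul _ hqm (hum b)]
    congr 1
    funext z
    exact f_eq C c f hdisj hfc hfz hfo b z
  have hPQ : ∀ b, P b = Q.withDensity (fun x => ∏ i, uu C b (x i)) := by
    intro b
    simp only [hP, hQ]
    rw [hdens b]
    haveI : IsProbabilityMeasure (μq.withDensity (uu C b)) := by rw [← hdens b]; exact hprob b
    exact PiDens.pi_withDensity n μq (uu C b) (hum b)
  set E : ℝ := Real.exp 1 ^ M with hE
  have hE0 : 0 < E := by positivity
  -- second moment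
  have hsm : ∀ b, ∫⁻ x, (∏ i, uu C b (x i)) ^ 2 ∂Q ≤ ENNReal.ofReal E := by
    intro b
    have h1 : ∀ x : Fin n → X, (∏ i, uu C b (x i)) ^ 2 = ∏ i, (uu C b (x i)) ^ 2 := by
      intro x; rw [Finset.prod_pow]
    simp_rw [h1]
    rw [hQ, PiDens.lintegral_pi_prod n μq (fun _ z => (uu C b z) ^ 2) (fun _ => (hum b).pow_const 2)]
    rw [Finset.prod_const, Finset.card_univ, Fintype.card_fin]
    have h2 := second_moment ν C a c f hC hdisj ha hc hν hfm hfc hfz hfo hint b
    calc (∫⁻ z, (uu C b z) ^ 2 ∂μq) ^ n ≤ (ENNReal.ofReal (1 + Fintype.card ι * (c * a))) ^ n := by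
          gcongr
      _ = ENNReal.ofReal ((1 + Fintype.card ι * (c * a)) ^ n) := by
          rw [ENNReal.ofReal_pow (by positivity)]
      _ ≤ ENNReal.ofReal E := by
          apply ENNReal.ofReal_le_ofReal
          have h3 : (1 + Fintype.card ι * (c * a)) ≤ Real.exp (Fintype.card ι * (c * a)) := by
            have := Real.add_one_le_exp (Fintype.card ι * (c * a))
            linarith
          calc (1 + Fintype.card ι * (c * a)) ^ n ≤ Real.exp (Fintype.card ι * (c * a)) ^ n := by
                gcongr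
            _ = Real.exp (n * (Fintype.card ι * (c * a))) := by rw [← Real.exp_nat_mul]
            _ ≤ Real.exp (M * 1) := by
                apply Real.exp_le_exp.mpr
                rw [hcard]
                push_cast
                have hM' : (0 : ℝ) ≤ M := Nat.cast_nonneg M
                calc (n : ℝ) * (16 * M * (c * a)) = 16 * M * (n * (c * a)) := by ring
                  _ ≤ 16 * M * (1 / 16) := by gcongr
                  _ = M * 1 := by ring
            _ = E := by rw [Real.exp_nat_mul]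
  -- good events
  set Ev : (ι → Bool) → Set (Fin n → X) := fun b => {x | ENNReal.ofReal (M * c * a / 2) <
          ∫⁻ z in ⋃ p, ⋃ t, C p t, ENNReal.ofReal ((√(T x z) - √(f b z)) ^ 2) ∂ν} with hEv
  set D : (ι → Bool) → Set (Fin n → X) := fun b => (toMeasurable (P b) (Ev b))ᶜ with hD
  have hDm : ∀ b, MeasurableSet (D b) := fun b => (measurableSet_toMeasurable _ _).compl
  have hDsub : ∀ b x, x ∈ D b → ∫⁻ z in ⋃ p, ⋃ t, C p t,
      ENNReal.ofReal ((√(T x z) - √(f b z)) ^ 2) ∂ν ≤ ENNReal.ofReal (M * c * a / 2) := by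
    intro b x hx
    by_contra hlt
    push Not at hlt
    exact hx (subset_toMeasurable _ _ hlt)
  have hDP : ∀ b, (1 / 4 : ℝ≥0∞) ≤ P b (D b) := by
    intro b
    haveI := hprob b
    have h1 : P b (toMeasurable (P b) (Ev b)) < 3 / 4 := by
      rw [measure_toMeasurable]; exact hcon b
    have h2 : P b (D b) = 1 - P b (toMeasurable (P b) (Ev b)) := by
      rw [hD]
      exact prob_compl_eq_one_sub (measurableSet_toMeasurable _ _)
    rw [h2]
    have h3 : (1 : ℝ≥0∞) - 3 / 4 = 1 / 4 := by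
      have h4 : (3 / 4 : ℝ≥0∞) = ENNReal.ofReal (3 / 4) := by
        rw [ENNReal.ofReal_div_of_pos (by norm_num)]; simp
      have h5 : (1 / 4 : ℝ≥0∞) = ENNReal.ofReal (1 / 4) := by
        rw [ENNReal.ofReal_div_of_pos (by norm_num)]; simp
      rw [h4, h5, show (1 : ℝ≥0∞) = ENNReal.ofReal 1 by simp, ← ENNReal.ofReal_sub _ (by norm_num)]
      congr 1
      norm_num
    rw [← h3]
    exact tsub_le_tsub_left h1.le 1
  -- lower bound of `Q (D b)`
  have hQD : ∀ b, ENNReal.ofReal (1 / (16 * E)) ≤ Q (D b) := by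
    intro b
    have h1 : P b (D b) ≤ ENNReal.ofReal (1 / 8) + ENNReal.ofReal (2 * E) * Q (D b) := by
      rw [hPQ b, withDensity_apply _ (hDm b)]
      have hmeas : Measurable (fun x : Fin n → X => (∏ i, uu C b (x i)) ^ 2) := by
        apply Measurable.pow_const
        apply Finset.measurable_fun_prod
        intro i _
        exact (hum b).comp (measurable_pi_apply i)
      calc ∫⁻ x in D b, ∏ i, uu C b (x i) ∂Q
          ≤ ∫⁻ x in D b, (ENNReal.ofReal (1 / (8 * E)) * (∏ i, uu C b (x i)) ^ 2 +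
              ENNReal.ofReal (2 * E)) ∂Q := lintegral_mono (fun x => amgm _ E hE0)
        _ = ENNReal.ofReal (1 / (8 * E)) * ∫⁻ x in D b, (∏ i, uu C b (x i)) ^ 2 ∂Q +
              ENNReal.ofReal (2 * E) * Q (D b) := by
            rw [lintegral_add_left (hmeas.const_mul _), lintegral_const_mul _ hmeas,
              setLIntegral_const]
        _ ≤ ENNReal.ofReal (1 / (8 * E)) * ENNReal.ofReal E + ENNReal.ofReal (2 * E) * Q (D b) := by
            gcongr
            exact (setLIntegral_le_lintegral _ _).trans (hsm b)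
        _ = ENNReal.ofReal (1 / 8) + ENNReal.ofReal (2 * E) * Q (D b) := by
            rw [← ENNReal.ofReal_mul (by positivity)]
            congr 2
            field_simp
    have h2 := (hDP b).trans h1
    by_contra hlt
    push Not at hlt
    have h3 : ENNReal.ofReal (1 / 8) + ENNReal.ofReal (2 * E) * Q (D b) <
        ENNReal.ofReal (1 / 8) + ENNReal.ofReal (2 * E) * ENNReal.ofReal (1 / (16 * E)) := by
      apply ENNReal.add_lt_add_left ENNReal.ofReal_ne_top
      apply (ENNReal.mul_lt_mul_iff_right _ ENNReal.ofReal_ne_top).mpr hlt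
      rw [Ne, ENNReal.ofReal_eq_zero, not_le]
      positivity
    have h4 : ENNReal.ofReal (1 / 8) + ENNReal.ofReal (2 * E) * ENNReal.ofReal (1 / (16 * E)) =
        1 / 4 := by
      rw [← ENNReal.ofReal_mul (by positivity), ← ENNReal.ofReal_add (by positivity) (by positivity)]
      have h5 : (1 / 4 : ℝ≥0∞) = ENNReal.ofReal (1 / 4) := by
        rw [ENNReal.ofReal_div_of_pos (by norm_num)]; simp
      rw [h5]
      congr 1
      field_simp
      norm_num
    rw [h4] at h3
    exact absurd h2 (not_le.mpr h3)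
  -- upper bound of the sum
  set V : ℝ := (8 * (9 / 8) ^ 16 : ℝ) ^ M with hV
  have hsumle : ∑ b : ι → Bool, Q (D b) ≤ ENNReal.ofReal V := by
    calc ∑ b : ι → Bool, Q (D b) = ∑ b : ι → Bool, ∫⁻ x, (D b).indicator 1 x ∂Q := by
          apply Finset.sum_congr rfl
          intro b _
          rw [lintegral_indicator_one (hDm b)]
      _ = ∫⁻ x, ∑ b : ι → Bool, (D b).indicator 1 x ∂Q := by
          rw [lintegral_finsetSum]
          intro b _
          exact measurable_one.indicator (hDm b)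
      _ ≤ ∫⁻ _, ENNReal.ofReal V ∂Q := by
          apply lintegral_mono
          intro x
          simp only
          have h1 : ∑ b : ι → Bool, (D b).indicator (1 : (Fin n → X) → ℝ≥0∞) x =
              ((Finset.univ.filter (fun b => x ∈ D b)).card : ℝ≥0∞) := by
            rw [Finset.card_eq_sum_ones, Nat.cast_sum, Finset.sum_filter]
            apply Finset.sum_congr rfl
            intro b _
            by_cases hx : x ∈ D b <;> simp [hx]
          rw [h1]
          have h2 := card_le M hcard (Finset.univ.filter (fun b => x ∈ D b)) (by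
            intro b hb b' hb'
            rw [Finset.mem_filter] at hb hb'
            exact ham_le_of_close ν C a c f M hC hdisj ha hc hν hfm hfc hfz (T x) (hT x) b b'
              (hDsub b x hb.2) (hDsub b' x hb'.2))
          rw [show (((Finset.univ.filter (fun b => x ∈ D b)).card : ℕ) : ℝ≥0∞) =
            ENNReal.ofReal ((Finset.univ.filter (fun b => x ∈ D b)).card : ℝ) by simp]
          exact ENNReal.ofReal_le_ofReal h2
      _ = ENNReal.ofReal V := by
          rw [lintegral_const, measure_univ, mul_one]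
  have hsumge : ENNReal.ofReal (2 ^ (16 * M) * (1 / (16 * E))) ≤ ∑ b : ι → Bool, Q (D b) := by
    calc ENNReal.ofReal (2 ^ (16 * M) * (1 / (16 * E)))
        = ∑ _b : ι → Bool, ENNReal.ofReal (1 / (16 * E)) := by
          rw [Finset.sum_const, Finset.card_univ, Fintype.card_fun, Fintype.card_bool, hcard,
            nsmul_eq_mul, ENNReal.ofReal_mul (by positivity)]
          congr 1
          rw [ENNReal.ofReal_pow (by norm_num)]
          simp
      _ ≤ _ := Finset.sum_le_sum (fun b _ => hQD b)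
  have hfin := hsumge.trans hsumle
  rw [ENNReal.ofReal_le_ofReal_iff (by positivity)] at hfin
  have hnum := numeric M hM
  rw [mul_one_div, div_le_iff₀ (by positivity)] at hfin
  rw [← hE, ← hV] at hnum
  linarith

end Main

end Pool.Agent.KS6_98.Assouad
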