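import Mathlib

/-!
# Approximation of a real entire function of order 3/2 with real zeros by real-rooted polynomials
-/

set_option autoImplicit false

open Complex Filter Topology Set Polynomial Metric

namespace Pool.Agent.KS6_98.CH

/-- logarithm of a nonvanishing holomorphic function on a ball -/
theorem exists_log (R : ℝ) (g : ℂ → ℂ) (hR : 0 < R) (hg : DifferentiableOn ℂ g (ball 0 R))
    (h0 : g 0 = 1) (hz : ∀ z ∈ ball (0 : ℂ) R, g z ≠ 0) :
    ∃ h : ℂ → ℂ, DifferentiableOn ℂ h (ball 0 R) ∧ h 0 = 0 ∧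
      (∀ z ∈ ball (0 : ℂ) R, g z = cexp (h z)) ∧ HasDerivAt h (deriv g 0) 0 := by
  have h0mem : (0 : ℂ) ∈ ball (0 : ℂ) R := mem_ball_self hR
  have h1 : DifferentiableOn ℂ (fun z => deriv g z / g z) (ball 0 R) := by
    apply DifferentiableOn.fun_div _ hg hz
    exact hg.deriv isOpen_ball
  obtain ⟨h, hh0, hh⟩ := h1.isExactOn_ball.with_val_at 0 0
  have hgd : ∀ z ∈ ball (0 : ℂ) R, HasDerivAt g (deriv g z) z := fun z hz =>
    (hg.differentiableAt (isOpen_ball.mem_nhds hz)).hasDerivAt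
  have key : ∀ z ∈ ball (0 : ℂ) R, HasDerivAt (fun w => g w * cexp (-(h w))) 0 z := by
    intro z hzm
    have hne := hz z hzm
    have e : (0 : ℂ) = deriv g z * cexp (-h z) + g z * (cexp (-h z) * -(deriv g z / g z)) := by
      field_simp
      ring
    rw [e]
    exact (hgd z hzm).mul ((hh z hzm).neg.cexp)
  have hconst : ∀ z ∈ ball (0 : ℂ) R, g z * cexp (-(h z)) = g 0 * cexp (-(h 0)) := by
    intro z hzm
    apply (isOpen_ball).is_const_of_deriv_eq_zero (convex_ball (0:ℂ) R).isPreconnected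
      (f := fun w => g w * cexp (-(h w)))
    · intro w hw; exact (key w hw).differentiableAt.differentiableWithinAt
    · intro w hw; exact (key w hw).deriv
    · exact hzm
    · exact h0mem
  refine ⟨h, fun z hzm => (hh z hzm).differentiableAt.differentiableWithinAt, hh0, ?_, ?_⟩
  · intro z hzm
    have := hconst z hzm
    rw [h0, hh0] at this
    simp at this
    rw [Complex.exp_neg] at this
    have hne := Complex.exp_ne_zero (h z)
    field_simp at this
    exact this
  · have := hh 0 h0mem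
    simpa [h0] using this

/-- local linear approximation of the logarithm -/
theorem log_linear (R A : ℝ) (hR : 0 < R) (hA : 0 < A) (h : ℂ → ℂ)
    (hd : DifferentiableOn ℂ h (ball 0 R)) (h0 : h 0 = 0)
    (hre : ∀ z ∈ ball (0 : ℂ) R, (h z).re ≤ A) (z : ℂ) (hz : ‖z‖ ≤ R / 2) :
    ‖h z - deriv h 0 * z‖ ≤ 16 * A / R ^ 2 * ‖z‖ ^ 2 := by
  have hR2 : 0 < R / 2 := by linarith
  have hsub : closedBall (0 : ℂ) (R / 2) ⊆ ball 0 R := closedBall_subset_ball (by linarith)
  have hb : ∀ w : ℂ, ‖w‖ ≤ R / 2 → ‖h w‖ ≤ 2 * A := by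
    intro w hw
    have hwm : w ∈ ball (0 : ℂ) R := hsub (by simpa using hw)
    have := Complex.borelCaratheodory_zero hA hd (fun z hz => hre z hz) hR hwm h0
    refine this.trans ?_
    rw [div_le_iff₀ (by linarith)]
    nlinarith
  have hdc : DiffContOnCl ℂ h (ball 0 (R / 2)) := by
    apply DifferentiableOn.diffContOnCl
    rw [closure_ball _ (by positivity)]
    exact hd.mono hsub
  have hd0 : ‖deriv h 0‖ ≤ 2 * A / (R / 2) := by
    apply Complex.norm_deriv_le_of_forall_mem_sphere_norm_le hR2 hdc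
    intro w hw
    exact hb w (by simpa using (mem_sphere_zero_iff_norm.mp hw).le)
  -- second divided difference
  set k : ℂ → ℂ := dslope (dslope h 0) 0 with hk
  have hballn : ball (0 : ℂ) R ∈ 𝓝 (0 : ℂ) := ball_mem_nhds _ hR
  have hd1 : DifferentiableOn ℂ (dslope h 0) (ball 0 R) := by
    rw [differentiableOn_dslope hballn]; exact hd
  have hd2 : DifferentiableOn ℂ k (ball 0 R) := by
    rw [hk, differentiableOn_dslope hballn]; exact hd1
  have hkz : ∀ w : ℂ, h w - deriv h 0 * w = w ^ 2 * k w := by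
    intro w
    have e1 : (w - 0) • dslope h 0 w = h w - h 0 := sub_smul_dslope h 0 w
    have e2 : (w - 0) • dslope (dslope h 0) 0 w = dslope h 0 w - dslope h 0 0 :=
      sub_smul_dslope _ 0 w
    rw [dslope_same] at e2
    simp only [sub_zero, smul_eq_mul, h0] at e1 e2
    rw [hk]
    calc h w - deriv h 0 * w = w * dslope h 0 w - deriv h 0 * w := by rw [e1]
      _ = w * (dslope h 0 w - deriv h 0) := by ring
      _ = w ^ 2 * dslope (dslope h 0) 0 w := by rw [← e2]; ring
  have hkb : ‖k z‖ ≤ 16 * A / R ^ 2 := by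
    apply Complex.norm_le_of_forall_mem_frontier_norm_le (U := ball (0:ℂ) (R/2)) isBounded_ball
    · apply DifferentiableOn.diffContOnCl
      rw [closure_ball _ (by positivity)]
      exact hd2.mono hsub
    · intro w hw
      rw [frontier_ball _ (by positivity)] at hw
      have hwn : ‖w‖ = R / 2 := mem_sphere_zero_iff_norm.mp hw
      have e := hkz w
      have e' : ‖h w - deriv h 0 * w‖ = ‖w‖ ^ 2 * ‖k w‖ := by rw [e]; simp
      have e2 : ‖h w - deriv h 0 * w‖ ≤ 4 * A := by
        calc ‖h w - deriv h 0 * w‖ ≤ ‖h w‖ + ‖deriv h 0 * w‖ := norm_sub_le _ _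
          _ ≤ 2 * A + 2 * A / (R / 2) * (R / 2) := by
            gcongr
            · exact hb w hwn.le
            · rw [norm_mul, hwn]; gcongr
          _ = 4 * A := by field_simp; ring
      rw [e', hwn] at e2
      rw [le_div_iff₀ (by positivity)]
      nlinarith [e2]
    · rw [closure_ball _ (by positivity)]; simpa using hz
  rw [hkz z, norm_mul, norm_pow, mul_comm]
  gcongr

/-- the factors `1 - z/x` -/
noncomputable def fac (s : Multiset ℝ) (z : ℂ) : ℂ := (s.map (fun x : ℝ => (1 - z / (x : ℂ)))).prod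

theorem fac_cons (x : ℝ) (s : Multiset ℝ) (z : ℂ) :
    fac (x ::ₘ s) z = (1 - z / (x : ℂ)) * fac s z := by simp [fac]

theorem fac_zero (s : Multiset ℝ) : fac s 0 = 1 := by
  induction s using Multiset.induction_on with
  | empty => simp [fac]
  | cons a s ih => rw [fac_cons, ih]; simp

theorem fac_lower (s : Multiset ℝ) (R : ℝ) (hs : ∀ x ∈ s, x ≠ 0 ∧ |x| ≤ R)
    (b : ℝ) (hb : 0 ≤ b) (z : ℂ) (hz : (b + 1) * R ≤ ‖z‖) : b ^ (Multiset.card s) ≤ ‖fac s z‖ := by
  induction s using Multiset.induction_on with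
  | empty => simp [fac]
  | cons a s ih =>
    rw [fac_cons, norm_mul, Multiset.card_cons, pow_succ, mul_comm]
    have ha := hs a (Multiset.mem_cons_self a s)
    have ha0 : 0 < |a| := abs_pos.mpr ha.1
    gcongr
    · have e : ‖z / (a : ℂ)‖ ≤ ‖1 - z / (a : ℂ)‖ + 1 := by
        calc ‖z / (a : ℂ)‖ = ‖-(1 - z / (a : ℂ)) + 1‖ := by congr 1; ring
          _ ≤ ‖-(1 - z / (a : ℂ))‖ + ‖(1:ℂ)‖ := norm_add_le _ _
          _ = _ := by rw [norm_neg, norm_one]
      have e2 : b + 1 ≤ ‖z / (a : ℂ)‖ := by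
        rw [norm_div, norm_real, Real.norm_eq_abs, le_div_iff₀ ha0]
        calc (b + 1) * |a| ≤ (b + 1) * R := by gcongr; exact ha.2
          _ ≤ _ := hz
      linarith
    · exact ih (fun x hx => hs x (Multiset.mem_cons_of_mem hx))

theorem fac_poly (s : Multiset ℝ) (hs : ∀ x ∈ s, x ≠ 0) :
    ∃ P : ℂ[X], (∀ z, P.eval z = fac s z) ∧ (∀ w, P.IsRoot w → w.im = 0) := by
  induction s using Multiset.induction_on with
  | empty => exact ⟨1, by simp [fac], by simp⟩
  | cons a s ih =>
    obtain ⟨P, h1, h2⟩ := ih (fun x hx => hs x (Multiset.mem_cons_of_mem hx))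
    have ha := hs a (Multiset.mem_cons_self a s)
    refine ⟨(1 - Polynomial.C ((a : ℂ)⁻¹) * Polynomial.X) * P, ?_, ?_⟩
    · intro z
      rw [fac_cons, ← h1]
      rw [Polynomial.eval_mul, Polynomial.eval_sub, Polynomial.eval_mul, Polynomial.eval_one,
        Polynomial.eval_C, Polynomial.eval_X, div_eq_mul_inv, mul_comm z]
    · intro w hw
      rw [Polynomial.IsRoot.def, Polynomial.eval_mul, mul_eq_zero] at hw
      rcases hw with hw | hw
      · simp at hw
        have hac : (a : ℂ) ≠ 0 := by exact_mod_cast ha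
        have : w = (a : ℂ) := by
          field_simp at hw
          linear_combination -hw
        rw [this]; simp
      · exact h2 w hw

/-- finite factorisation -/
theorem exists_factor (F : ℂ → ℂ) (hF : Differentiable ℂ F) (h0 : F 0 = 1)
    (hr : ∀ z, F z = 0 → z.im = 0) (R : ℝ) (hR : 0 < R) :
    ∃ (s : Multiset ℝ) (g : ℂ → ℂ), (∀ x ∈ s, x ≠ 0 ∧ |x| ≤ R) ∧ Differentiable ℂ g ∧
      (∀ z, F z = fac s z * g z) ∧ (∀ z ∈ closedBall (0 : ℂ) R, g z ≠ 0) := by
  by_contra hcon
  have hall : ∀ n : ℕ, ∃ (s : Multiset ℝ) (g : ℂ → ℂ), Multiset.card s = n ∧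
      (∀ x ∈ s, x ≠ 0 ∧ |x| ≤ R) ∧ Differentiable ℂ g ∧ (∀ z, F z = fac s z * g z) := by
    intro n
    induction n with
    | zero => exact ⟨0, F, by simp, by simp, hF, by simp [fac]⟩
    | succ n ih =>
      obtain ⟨s, g, hc, hs, hg, hfac⟩ := ih
      have : ∃ w ∈ closedBall (0 : ℂ) R, g w = 0 := by
        by_contra hne
        push Not at hne
        exact hcon ⟨s, g, hs, hg, hfac, hne⟩
      obtain ⟨w, hw, hgw⟩ := this
      have hFw : F w = 0 := by rw [hfac, hgw, mul_zero]
      have hwim := hr w hFw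
      have hw0 : w ≠ 0 := by
        rintro rfl
        rw [h0] at hFw
        exact one_ne_zero hFw
      have hwre : ((w.re : ℝ) : ℂ) = w := by
        apply Complex.ext <;> simp [hwim]
      have hre0 : w.re ≠ 0 := by
        intro h
        apply hw0
        rw [← hwre, h]; simp
      refine ⟨w.re ::ₘ s, fun z => -w * dslope g w z, by simp [hc], ?_, ?_, ?_⟩
      · intro x hx
        rw [Multiset.mem_cons] at hx
        rcases hx with rfl | hx
        · refine ⟨hre0, ?_⟩
          have : ‖w‖ ≤ R := by simpa using hw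
          exact (Complex.abs_re_le_norm w).trans this
        · exact hs x hx
      · have : Differentiable ℂ (dslope g w) := by
          rw [← differentiableOn_univ, differentiableOn_dslope univ_mem, differentiableOn_univ]
          exact hg
        exact this.const_mul (-w)
      · intro z
        have e1 : (z - w) • dslope g w z = g z - g w := sub_smul_dslope g w z
        rw [hgw, sub_zero, smul_eq_mul] at e1
        rw [fac_cons, hwre, hfac z, ← e1]
        field_simp
        ring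
  -- growth contradiction
  have hcpt : IsCompact (sphere (0 : ℂ) (3 * R)) := isCompact_sphere _ _
  obtain ⟨B, hB⟩ := hcpt.exists_bound_of_continuousOn hF.continuous.continuousOn
  obtain ⟨n, hn⟩ := pow_unbounded_of_one_lt B (by norm_num : (1 : ℝ) < 2)
  obtain ⟨s, g, hc, hs, hg, hfac⟩ := hall n
  have hg0 : g 0 = 1 := by
    have := hfac 0
    rw [h0, fac_zero, one_mul] at this
    exact this.symm
  have hle : ‖g 0‖ ≤ B / 2 ^ n := by
    apply Complex.norm_le_of_forall_mem_frontier_norm_le (U := ball (0:ℂ) (3 * R)) isBounded_ball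
    · exact hg.diffContOnCl
    · intro w hw
      rw [frontier_ball _ (by positivity)] at hw
      have hwn : ‖w‖ = 3 * R := mem_sphere_zero_iff_norm.mp hw
      have e := hB w hw
      rw [hfac w, norm_mul] at e
      have e2 := fac_lower s R hs 2 (by norm_num) w (by rw [hwn]; linarith)
      rw [hc] at e2
      rw [le_div_iff₀ (by positivity)]
      calc ‖g w‖ * 2 ^ n ≤ ‖g w‖ * ‖fac s w‖ := by gcongr
        _ = ‖fac s w‖ * ‖g w‖ := mul_comm _ _
        _ ≤ B := e
    · rw [closure_ball _ (by positivity)]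
      simp; positivity
  rw [hg0, norm_one, le_div_iff₀ (by positivity), one_mul] at hle
  linarith

theorem norm_pow_sub_pow_le (a b : ℂ) (M : ℝ) (hM : 0 ≤ M) (ha : ‖a‖ ≤ M) (hb : ‖b‖ ≤ M) (n : ℕ) :
    ‖a ^ (n + 1) - b ^ (n + 1)‖ ≤ (n + 1) * M ^ n * ‖a - b‖ := by
  induction n with
  | zero => simp
  | succ n ih =>
    have : a ^ (n + 1 + 1) - b ^ (n + 1 + 1) = a * (a ^ (n + 1) - b ^ (n + 1)) + (a - b) * b ^ (n + 1) := by
      ring
    rw [this]
    calc ‖a * (a ^ (n + 1) - b ^ (n + 1)) + (a - b) * b ^ (n + 1)‖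
        ≤ ‖a * (a ^ (n + 1) - b ^ (n + 1))‖ + ‖(a - b) * b ^ (n + 1)‖ := norm_add_le _ _
      _ = ‖a‖ * ‖a ^ (n + 1) - b ^ (n + 1)‖ + ‖a - b‖ * ‖b‖ ^ (n + 1) := by simp
      _ ≤ M * ((n + 1) * M ^ n * ‖a - b‖) + ‖a - b‖ * M ^ (n + 1) := by gcongr
      _ = _ := by push_cast; ring

/-- `(1 + w/m)^m` against `exp w` -/
theorem one_add_pow_close (w : ℂ) (m : ℕ) (hm : 0 < m) (hw : ‖w‖ ≤ m) :
    ‖(1 + w / m) ^ m - cexp w‖ ≤ ‖w‖ ^ 2 * Real.exp ‖w‖ / m := by
  obtain ⟨n, rfl⟩ : ∃ n, m = n + 1 := ⟨m - 1, by omega⟩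
  set v : ℂ := w / ((n + 1 : ℕ) : ℂ) with hv
  have hm' : (0 : ℝ) < ((n + 1 : ℕ) : ℝ) := by positivity
  have hvn : ‖v‖ = ‖w‖ / ((n + 1 : ℕ) : ℝ) := by rw [hv, norm_div, Complex.norm_natCast]
  have hv1 : ‖v‖ ≤ 1 := by rw [hvn, div_le_one hm']; exact hw
  have e1 : cexp w = cexp v ^ (n + 1) := by
    rw [← Complex.exp_nat_mul, hv]
    congr 1
    field_simp
  have hM1 : ‖1 + v‖ ≤ Real.exp ‖v‖ := by
    calc ‖1 + v‖ ≤ ‖(1:ℂ)‖ + ‖v‖ := norm_add_le _ _
      _ = ‖v‖ + 1 := by rw [norm_one]; ring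
      _ ≤ _ := Real.add_one_le_exp _
  have hM2 : ‖cexp v‖ ≤ Real.exp ‖v‖ := by
    rw [Complex.norm_exp]
    exact Real.exp_le_exp.mpr (Complex.re_le_norm v)
  have h1 := norm_pow_sub_pow_le (1 + v) (cexp v) (Real.exp ‖v‖) (Real.exp_pos _).le hM1 hM2 n
  have h2 : ‖(1 + v) - cexp v‖ ≤ ‖v‖ ^ 2 := by
    have := Complex.norm_exp_sub_one_sub_id_le hv1
    rw [norm_sub_rev]
    rwa [sub_sub] at this
  have h3 : Real.exp ‖v‖ ^ n ≤ Real.exp ‖w‖ := by
    rw [← Real.exp_nat_mul]
    apply Real.exp_le_exp.mpr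
    rw [hvn, ← mul_div_assoc, div_le_iff₀ hm']
    push_cast
    nlinarith [norm_nonneg w]
  rw [e1]
  refine h1.trans ?_
  calc ((n : ℝ) + 1) * Real.exp ‖v‖ ^ n * ‖1 + v - cexp v‖
      ≤ ((n : ℝ) + 1) * Real.exp ‖w‖ * ‖v‖ ^ 2 := by gcongr
    _ = ‖w‖ ^ 2 * Real.exp ‖w‖ / ((n + 1 : ℕ) : ℝ) := by
      rw [hvn]; push_cast; field_simp

/-- one approximation step -/
theorem approx_step (F : ℂ → ℂ) (hF : Differentiable ℂ F) (h0 : F 0 = 1)
    (hr : ∀ z, F z = 0 → z.im = 0)
    (hsym : ∀ z, F ((starRingEnd ℂ) z) = (starRingEnd ℂ) (F z))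
    (K : ℝ) (hK : 0 ≤ K) (hgr : ∀ z, ‖F z‖ ≤ Real.exp (K * (1 + ‖z‖) ^ (3 / 2 : ℝ)))
    (r ε : ℝ) (hr0 : 0 < r) (hε : 0 < ε) :
    ∃ Q : ℂ[X], (∀ w, Q.IsRoot w → w.im = 0) ∧ ∀ z : ℂ, ‖z‖ ≤ r → ‖Q.eval z - F z‖ ≤ ε := by
  set B : ℝ := Real.exp (K * (1 + r) ^ (3 / 2 : ℝ)) with hBdef
  have hB0 : 0 < B := Real.exp_pos _
  set D : ℝ := 16 * (8 * K + 1) * r ^ 2 with hDdef
  have hD0 : 0 < D := by positivity
  set T : ℝ := 1 + 2 * r + D + 4 * B * D / ε with hTdef
  have hBD : 0 < 4 * B * D / ε := by positivity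
  have hT1 : 1 ≤ T := by linarith
  have hT0 : 0 < T := by linarith
  have hTr : 2 * r ≤ T := by linarith
  have hTD : D ≤ T := by linarith
  have hTB : 4 * B * D / ε ≤ T := by linarith
  set R : ℝ := T ^ 2 with hRdef
  have hR0 : 0 < R := by positivity
  have hRT : T ≤ R := by rw [hRdef]; nlinarith
  have hRr : r ≤ R / 2 := by linarith
  set A : ℝ := (8 * K + 1) * T ^ 3 with hAdef
  have hA0 : 0 < A := by positivity
  have hpow : (1 + 2 * R) ^ (3 / 2 : ℝ) ≤ 8 * T ^ 3 := by
    have h1 : 1 + 2 * R ≤ (2 * T) ^ (2 : ℝ) := by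
      rw [Real.rpow_two, hRdef]; nlinarith
    calc (1 + 2 * R) ^ (3 / 2 : ℝ) ≤ ((2 * T) ^ (2 : ℝ)) ^ (3 / 2 : ℝ) := by
          apply Real.rpow_le_rpow (by positivity) h1 (by norm_num)
      _ = (2 * T) ^ (3 : ℝ) := by
          rw [← Real.rpow_mul (by positivity)]; norm_num
      _ = 8 * T ^ 3 := by
          rw [show (3 : ℝ) = ((3 : ℕ) : ℝ) by norm_num, Real.rpow_natCast]; ring
  have hAle : K * (1 + 2 * R) ^ (3 / 2 : ℝ) ≤ A := by
    calc K * (1 + 2 * R) ^ (3 / 2 : ℝ) ≤ K * (8 * T ^ 3) := by gcongr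
      _ ≤ A := by rw [hAdef]; nlinarith [pow_pos hT0 3]
  obtain ⟨s, g, hs, hg, hfac, hne⟩ := exists_factor F hF h0 hr R hR0
  have hg0 : g 0 = 1 := by
    have := hfac 0
    rw [h0, fac_zero, one_mul] at this
    exact this.symm
  have hgb : ∀ z ∈ ball (0 : ℂ) R, ‖g z‖ ≤ Real.exp A := by
    intro z hz
    apply Complex.norm_le_of_forall_mem_frontier_norm_le (U := ball (0:ℂ) (2 * R)) isBounded_ball
    · exact hg.diffContOnCl
    · intro w hw
      rw [frontier_ball _ (by positivity)] at hw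
      have hwn : ‖w‖ = 2 * R := mem_sphere_zero_iff_norm.mp hw
      have e := hgr w
      rw [hfac w, norm_mul] at e
      have e2 := fac_lower s R hs 1 (by norm_num) w (by rw [hwn]; linarith)
      rw [one_pow] at e2
      calc ‖g w‖ = 1 * ‖g w‖ := (one_mul _).symm
        _ ≤ ‖fac s w‖ * ‖g w‖ := by gcongr
        _ ≤ Real.exp (K * (1 + ‖w‖) ^ (3 / 2 : ℝ)) := e
        _ ≤ Real.exp A := by rw [hwn]; exact Real.exp_le_exp.mpr hAle
    · rw [closure_ball _ (by positivity)]
      have : ‖z‖ < R := by simpa using hz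
      simp; linarith
  obtain ⟨h, hhd, hh0, hgexp, hhder⟩ := exists_log R g hR0 hg.differentiableOn hg0
    (fun z hz => hne z (ball_subset_closedBall hz))
  have hre : ∀ z ∈ ball (0 : ℂ) R, (h z).re ≤ A := by
    intro z hz
    have e := hgb z hz
    rw [hgexp z hz, Complex.norm_exp] at e
    exact Real.exp_le_exp.mp e
  set c : ℂ := deriv g 0 with hcdef
  have hcd : deriv h 0 = c := hhder.deriv
  -- c is real
  have hcim : c.im = 0 := by
    have hd : HasDerivAt (fun x : ℝ => g x) c 0 := by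
      have : HasDerivAt g c ((0 : ℝ) : ℂ) := by
        rw [Complex.ofReal_zero]; exact hg.differentiableAt.hasDerivAt
      exact this.comp_ofReal
    have him : HasDerivAt (fun x : ℝ => (g x).im) c.im 0 := by
      exact Complex.imCLM.hasFDerivAt.comp_hasDerivAt (0 : ℝ) hd
    have hzero : (fun x : ℝ => (g x).im) =ᶠ[𝓝 0] fun _ => (0 : ℝ) := by
      have hcont : Continuous (fun x : ℝ => fac s (x : ℂ)) := by
        unfold fac
        obtain ⟨P, hP, -⟩ := fac_poly s (fun x hx => (hs x hx).1)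
        have : (fun x : ℝ => (Multiset.map (fun y : ℝ => 1 - (x : ℂ) / (y : ℂ)) s).prod)
            = fun x : ℝ => P.eval (x : ℂ) := by
          funext x; rw [hP]; rfl
        rw [this]
        exact P.continuous.comp Complex.continuous_ofReal
      have hne0 : ∀ᶠ x : ℝ in 𝓝 0, fac s (x : ℂ) ≠ 0 := by
        apply hcont.continuousAt.eventually_ne
        rw [Complex.ofReal_zero, fac_zero]
        exact one_ne_zero
      filter_upwards [hne0] with x hx
      have hFr : (F x).im = 0 := by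
        have := hsym (x : ℂ)
        rw [Complex.conj_ofReal] at this
        exact Complex.conj_eq_iff_im.mp this.symm
      have hfr : (fac s (x : ℂ)).im = 0 := by
        have : (starRingEnd ℂ) (fac s (x : ℂ)) = fac s (x : ℂ) := by
          unfold fac
          rw [map_multiset_prod, Multiset.map_map]
          congr 1
          apply Multiset.map_congr rfl
          intro y _
          simp
        exact Complex.conj_eq_iff_im.mp this
      have hfre : ((fac s (x:ℂ)).re : ℂ) = fac s (x : ℂ) := by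
        apply Complex.ext <;> simp [hfr]
      have := hfac (x : ℂ)
      rw [← hfre] at this
      have h2 : (F x).im = (fac s (x:ℂ)).re * (g x).im := by
        rw [this]; simp
      rw [hFr] at h2
      have hre0 : (fac s (x:ℂ)).re ≠ 0 := by
        intro h
        apply hx
        rw [← hfre, h]; simp
      rcases mul_eq_zero.mp h2.symm with h | h
      · exact absurd h hre0
      · exact h
    have := him.congr_of_eventuallyEq hzero.symm
    have h2 : HasDerivAt (fun _ : ℝ => (0:ℝ)) (0:ℝ) 0 := hasDerivAt_const _ _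
    exact this.unique h2
  obtain ⟨P, hP, hPr⟩ := fac_poly s (fun x hx => (hs x hx).1)
  obtain ⟨B2, hB2⟩ := (isCompact_closedBall (0 : ℂ) r).exists_bound_of_continuousOn
    (f := fun z => P.eval z) P.continuous.continuousOn
  have hB2' : 0 ≤ B2 := le_trans (norm_nonneg _) (hB2 0 (by simp [hr0.le]))
  obtain ⟨m, hm⟩ := exists_nat_gt (1 + ‖c‖ * r + 2 * B2 * ((‖c‖ * r) ^ 2 * Real.exp (‖c‖ * r)) / ε)
  have hcr : 0 ≤ ‖c‖ * r := by positivity
  have hBB : 0 ≤ 2 * B2 * ((‖c‖ * r) ^ 2 * Real.exp (‖c‖ * r)) / ε := by positivity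
  have hm0 : 0 < m := by
    have : (0 : ℝ) < m := by linarith
    exact_mod_cast this
  have hm0' : (0 : ℝ) < m := by exact_mod_cast hm0
  refine ⟨P * (1 + Polynomial.C (c / m) * Polynomial.X) ^ m, ?_, ?_⟩
  · intro w hw
    rw [Polynomial.IsRoot.def, Polynomial.eval_mul, mul_eq_zero] at hw
    rcases hw with hw | hw
    · exact hPr w hw
    · rw [Polynomial.eval_pow] at hw
      have hw2 := (pow_eq_zero_iff hm0.ne').mp hw
      rw [Polynomial.eval_add, Polynomial.eval_mul, Polynomial.eval_one,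
        Polynomial.eval_C, Polynomial.eval_X] at hw2
      have hmc : (m : ℂ) ≠ 0 := by exact_mod_cast hm0.ne'
      have hc0 : c ≠ 0 := by
        rintro h
        rw [h] at hw2
        simp at hw2
      have hcw : c * w = -(m : ℂ) := by
        field_simp at hw2
        linear_combination hw2
      have hcre : ((c.re : ℝ) : ℂ) = c := by
        apply Complex.ext <;> simp [hcim]
      have hcre0 : c.re ≠ 0 := by
        intro h
        apply hc0
        rw [← hcre, h]; simp
      have := congrArg Complex.im hcw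
      rw [← hcre] at this
      simp at this
      rcases this with h | h
      · exact absurd h hcre0
      · exact h
  · intro z hz
    have hzR : z ∈ ball (0 : ℂ) R := by
      simp; linarith
    have hlin := log_linear R A hR0 hA0 h hhd hh0 hre z (hz.trans hRr)
    rw [hcd] at hlin
    have hδ : ‖c * z - h z‖ ≤ D / T := by
      rw [norm_sub_rev]
      refine hlin.trans ?_
      calc 16 * A / R ^ 2 * ‖z‖ ^ 2 ≤ 16 * A / R ^ 2 * r ^ 2 := by gcongr
        _ = D / T := by rw [hAdef, hRdef, hDdef]; field_simp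
    have hδ1 : D / T ≤ 1 := by rw [div_le_one hT0]; exact hTD
    have hBδ : B * (2 * (D / T)) ≤ ε / 2 := by
      have : 4 * B * D ≤ T * ε := by
        rwa [div_le_iff₀ hε] at hTB
      have e : B * (2 * (D / T)) = (4 * B * D) / (2 * T) := by field_simp; ring
      rw [e, div_le_iff₀ (by positivity)]
      calc 4 * B * D ≤ T * ε := this
        _ = ε / 2 * (2 * T) := by ring
    have hFB : ‖F z‖ ≤ B := by
      refine (hgr z).trans ?_
      rw [hBdef]
      gcongr
    have e1 : ‖P.eval z * cexp (c * z) - F z‖ ≤ ε / 2 := by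
      have e : P.eval z * cexp (c * z) - F z = F z * (cexp (c * z - h z) - 1) := by
        rw [hP, mul_sub, mul_one, Complex.exp_sub, hfac z, hgexp z hzR]
        have := Complex.exp_ne_zero (h z)
        field_simp
      rw [e, norm_mul]
      calc ‖F z‖ * ‖cexp (c * z - h z) - 1‖ ≤ B * (2 * (D / T)) := by
            gcongr
            refine (Complex.norm_exp_sub_one_le (hδ.trans hδ1)).trans ?_
            gcongr
        _ ≤ ε / 2 := hBδ
    have hcz : ‖c * z‖ ≤ ‖c‖ * r := by rw [norm_mul]; gcongr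
    have e2 : ‖(1 + (c * z) / m) ^ m - cexp (c * z)‖ ≤
        (‖c‖ * r) ^ 2 * Real.exp (‖c‖ * r) / m := by
      refine (one_add_pow_close (c * z) m hm0 (by linarith)).trans ?_
      gcongr
    have e3 : ‖P.eval z * ((1 + (c * z) / m) ^ m - cexp (c * z))‖ ≤ ε / 2 := by
      rw [norm_mul]
      calc ‖P.eval z‖ * ‖(1 + (c * z) / m) ^ m - cexp (c * z)‖
          ≤ B2 * ((‖c‖ * r) ^ 2 * Real.exp (‖c‖ * r) / m) := by
            gcongr
            exact hB2 z (by simpa using hz)
        _ ≤ ε / 2 := by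
            have : 2 * B2 * ((‖c‖ * r) ^ 2 * Real.exp (‖c‖ * r)) / ε ≤ m := by linarith
            rw [div_le_iff₀ hε] at this
            rw [← mul_div_assoc, div_le_iff₀ hm0']
            linarith
    have e4 : (P * (1 + Polynomial.C (c / m) * Polynomial.X) ^ m).eval z - F z =
        P.eval z * ((1 + (c * z) / m) ^ m - cexp (c * z)) + (P.eval z * cexp (c * z) - F z) := by
      rw [Polynomial.eval_mul, Polynomial.eval_pow, Polynomial.eval_add, Polynomial.eval_mul,
        Polynomial.eval_one, Polynomial.eval_C, Polynomial.eval_X]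
      ring
    rw [e4]
    calc _ ≤ ‖P.eval z * ((1 + (c * z) / m) ^ m - cexp (c * z))‖ +
          ‖P.eval z * cexp (c * z) - F z‖ := norm_add_le _ _
      _ ≤ ε / 2 + ε / 2 := add_le_add e3 e1
      _ = ε := by ring

/-- real-rooted polynomials converging locally uniformly to `F` -/
theorem exists_real_rooted_approx (F : ℂ → ℂ) (hF : Differentiable ℂ F) (h0 : F 0 = 1)
    (hr : ∀ z, F z = 0 → z.im = 0)
    (hsym : ∀ z, F ((starRingEnd ℂ) z) = (starRingEnd ℂ) (F z))
    (K : ℝ) (hK : 0 ≤ K) (hgr : ∀ z, ‖F z‖ ≤ Real.exp (K * (1 + ‖z‖) ^ (3 / 2 : ℝ))) :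
    ∃ Q : ℕ → ℂ[X], (∀ N w, (Q N).IsRoot w → w.im = 0) ∧
      TendstoLocallyUniformly (fun (N : ℕ) (w : ℂ) => (Q N).eval w) F atTop := by
  choose Q hQ1 hQ2 using fun N : ℕ => approx_step F hF h0 hr hsym K hK hgr ((N : ℝ) + 1)
    (1 / ((N : ℝ) + 1)) (by positivity) (by positivity)
  refine ⟨Q, hQ1, ?_⟩
  rw [tendstoLocallyUniformly_iff_forall_isCompact]
  intro S hS
  rw [Metric.tendstoUniformlyOn_iff]
  intro ε hε
  obtain ⟨b, hb⟩ := hS.isBounded.exists_norm_le
  obtain ⟨n1, hn1⟩ := exists_nat_gt b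
  obtain ⟨n2, hn2⟩ := exists_nat_gt (1 / ε)
  filter_upwards [eventually_ge_atTop (max n1 n2)] with N hN x hx
  have hN1 : (n1 : ℝ) ≤ N := by exact_mod_cast (le_max_left _ _).trans hN
  have hN2 : (n2 : ℝ) ≤ N := by exact_mod_cast (le_max_right _ _).trans hN
  rw [dist_comm, dist_eq_norm]
  have hxN : ‖x‖ ≤ (N : ℝ) + 1 := (hb x hx).trans (by linarith)
  refine (hQ2 N x hxN).trans_lt ?_
  rw [div_lt_iff₀ (by positivity)]
  have : 1 / ε < (N : ℝ) + 1 := by linarith
  rw [div_lt_iff₀ hε] at this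
  linarith

end Pool.Agent.KS6_98.CH
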