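import Pool.Agent.KS6_98.ChernoffApprox
import Pool.Graph.R_seed8.R748.CH.Final
import Pool.Graph.R_seed8.R748.CH.TR
import Pool.Graph.R_seed8.R748.CH.LEMA
import Pool.Graph.R_seed8.R748.CH.CLOSE
import Pool.Graph.R_seed8.R748.CH.GAUSS
import Pool.Graph.R_seed8.R748.CH.MID
import Pool.Graph.R_seed8.R748.CH.POLY
import Pool.Graph.R_seed8.R748.CH.LIMIT
import Pool.Graph.R_seed8.R748.CH.ENT
import Pool.Graph.R_seed8.R748.CH.POS
import Pool.Graph.R_seed8.R748.CH.GROW
import Pool.Graph.R_seed8.R748.CH.FDEF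
import Pool.Graph.R_seed8.R748.CH.AILOW
import Pool.Graph.R_seed8.R748.CH.DECAY
import Pool.Graph.R_seed8.R748.CH.PH
import Pool.Graph.R_seed8.R748.CH.SHIFT
import Pool.Graph.R_seed8.R748.CH.FAST
import Pool.Graph.R_seed8.R748.CH.KERB
import Pool.Graph.R_seed8.R748.CH.KERL
import Pool.Graph.R_seed8.R748.CH.TAIL
import Pool.Graph.R_seed8.R748.CH.SCALE
import Pool.Graph.R_seed8.R748.CH.FIN
import Pool.Graph.R_seed8.H140R2.FR.T03Zeros

/-!
# The missing piece `S_G`: the inverse Fourier transform of `1/Ai(iω)` is positive and strictly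
log-concave
-/

set_option autoImplicit false

open Complex MeasureTheory Set Filter Topology Polynomial
open Pool.Agent.H140R2.FR (Ai)
open Pool.Agent.R748.CH

namespace Pool.Agent.KS6_98.CH

theorem t_G (hTR : S_TR) (hLEMA : S_LEMA) (hLIMIT : S_LIMIT) (hENT : S_ENT) (hPOS : S_POS)
    (hFDEF : S_FDEF) (hPH : S_PH) (hFAST : S_FAST) (hTAIL : S_TAIL) : S_G := by
  obtain ⟨z₁, hz1, hz2, -⟩ := Pool.Agent.H140R2.FR.exists_first_zero
  set a : ℝ := -z₁ with ha
  have ha0 : 0 < a := by rw [ha]; linarith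
  have hAia : Ai (-(a : ℂ)) = 0 := by rw [ha]; push_cast; rw [neg_neg]; exact hz2
  obtain ⟨hFd, hF0, -, hFsym, hFz, K, hK, hgr⟩ := hFDEF a ha0 hAia
  obtain ⟨hM0, hph⟩ := hPH
  obtain ⟨hM1, hdec, -, ⟨hA0, -⟩, hrel⟩ := hph a ha0 hAia
  have happ := exists_real_rooted_approx (Fa a) hFd hF0 hFz hFsym K hK hgr
  obtain ⟨hnn, hlc, hmid⟩ := hLIMIT (Fa a) hFd.continuous hF0 happ hM1
  set G : ℝ → ℝ := RT ph0 0 with hG
  set G1 : ℝ → ℝ := RT ph0 1 with hG1
  set G2 : ℝ → ℝ := RT ph0 2 with hG2
  set G3 : ℝ → ℝ := RT ph0 3 with hG3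
  set A0 : ℝ := (Ai 0).re with hA0def
  have d0 : ∀ x, HasDerivAt G (G1 x) x := (hTR ph0 hM0 0).1
  have d1 : ∀ x, HasDerivAt G1 (G2 x) x := (hTR ph0 hM0 1).1
  have d2 : ∀ x, HasDerivAt G2 (G3 x) x := (hTR ph0 hM0 2).1
  have hanal : AnalyticOnNhd ℝ (RT (ph1 a) 0) Set.univ := hENT (ph1 a) hM1.cont hdec
  have hr0 : ∀ x, RT (ph1 a) 0 x = A0 * (G x + G1 x / a) := fun x => hrel 0 x
  have hr1 : ∀ x, RT (ph1 a) 1 x = A0 * (G1 x + G2 x / a) := fun x => hrel 1 x
  have hr2 : ∀ x, RT (ph1 a) 2 x = A0 * (G2 x + G3 x / a) := fun x => hrel 2 x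
  -- the transform does not vanish identically
  have hex : ∃ x, RT (ph1 a) 0 x ≠ 0 := by
    by_contra hcon
    push Not at hcon
    have hz : ∀ x, a * G x + G1 x = 0 := by
      intro x
      have := hcon x
      rw [hr0 x] at this
      rcases mul_eq_zero.mp this with h | h
      · exact absurd h hA0.ne'
      · field_simp at h
        linarith
    have hder : ∀ x, HasDerivAt (fun x => Real.exp (a * x) * G x) 0 x := by
      intro x
      have h1 : HasDerivAt (fun x : ℝ => Real.exp (a * x)) (Real.exp (a * x) * a) x := by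
        have := ((hasDerivAt_id x).const_mul a).exp
        simpa using this
      have h2 := h1.mul (d0 x)
      have e : Real.exp (a * x) * a * G x + Real.exp (a * x) * G1 x = 0 := by
        have := hz x
        calc _ = Real.exp (a * x) * (a * G x + G1 x) := by ring
          _ = 0 := by rw [this, mul_zero]
      rw [e] at h2
      exact h2
    have hconst : ∀ x y, Real.exp (a * x) * G x = Real.exp (a * y) * G y := by
      intro x y
      exact is_const_of_deriv_eq_zero (fun x => (hder x).differentiableAt)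
        (fun x => (hder x).deriv) x y
    obtain ⟨X0, hX0⟩ := hTAIL
    have hne := (hX0 X0 le_rfl).2
    obtain ⟨C, hC⟩ := hFAST 0 0 le_rfl
    -- `e^{ax} G x → 0` at `-∞`, and it is constant
    have hlim : Tendsto (fun x => Real.exp (a * x) * G x) atBot (𝓝 0) := by
      have h1 : Tendsto (fun x : ℝ => Real.exp (a * x)) atBot (𝓝 0) :=
        Real.tendsto_exp_atBot.comp (tendsto_id.const_mul_atBot ha0)
      apply squeeze_zero_norm (a := fun x => Real.exp (a * x) * C)
      · intro x
        rw [norm_mul, Real.norm_eq_abs, Real.norm_eq_abs, abs_of_pos (Real.exp_pos _)]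
        have := hC x
        rw [zero_mul, Real.exp_zero, mul_one] at this
        gcongr
      · simpa using h1.mul_const C
    have hval : ∀ x, Real.exp (a * x) * G x = 0 := by
      intro x
      have h2 : Tendsto (fun _ : ℝ => Real.exp (a * x) * G x) atBot (𝓝 0) := by
        refine hlim.congr (fun y => hconst y x)
      exact tendsto_nhds_unique tendsto_const_nhds h2
    apply hne
    have := hval (-X0)
    rcases mul_eq_zero.mp this with h | h
    · exact absurd h (Real.exp_ne_zero _)
    · exact h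
  have hNpos : ∀ x, 0 < RT (ph1 a) 0 x := hPOS _ hanal hnn hmid hex
  -- apply LEMA
  have hE : ∀ x : ℝ, HasDerivAt (fun x : ℝ => Real.exp (a * x)) (Real.exp (a * x) * a) x := by
    intro x
    have := ((hasDerivAt_id x).const_mul a).exp
    simpa using this
  have hu : ∀ x, 0 < a * G x + G1 x := by
    intro x
    have h := hNpos x
    rw [hr0 x] at h
    have h2 : 0 < G x + G1 x / a := by
      by_contra hcon
      push Not at hcon
      nlinarith
    have h3 : a * (G x + G1 x / a) = a * G x + G1 x := by field_simp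
    rw [← h3]; positivity
  have hulc : ∀ x, (a * G x + G1 x) * (a * G2 x + G3 x) ≤ (a * G1 x + G2 x) ^ 2 := by
    intro x
    have h := hlc x
    change RT (ph1 a) 0 x * RT (ph1 a) 2 x ≤ RT (ph1 a) 1 x ^ 2 at h
    rw [hr0, hr1, hr2] at h
    have e1 : A0 * (G x + G1 x / a) * (A0 * (G2 x + G3 x / a)) =
        (A0 / a) ^ 2 * ((a * G x + G1 x) * (a * G2 x + G3 x)) := by field_simp
    have e2 : (A0 * (G1 x + G2 x / a)) ^ 2 = (A0 / a) ^ 2 * (a * G1 x + G2 x) ^ 2 := by
      field_simp
    rw [e1, e2] at h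
    exact le_of_mul_le_mul_left h (by positivity)
  have hA := hLEMA (fun x => Real.exp (a * x) * G x)
    (fun x => Real.exp (a * x) * (a * G x + G1 x))
    (fun x => Real.exp (a * x) * (a * (a * G x + G1 x) + (a * G1 x + G2 x)))
    (fun x => Real.exp (a * x) * (a ^ 2 * (a * G x + G1 x) + 2 * a * (a * G1 x + G2 x) +
      (a * G2 x + G3 x)))
    (by
      intro x
      have h := (hE x).mul (d0 x)
      refine h.congr_deriv ?_
      ring)
    (by
      intro x
      have h := (hE x).mul (((d0 x).const_mul a).add (d1 x))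
      refine h.congr_deriv ?_
      simp only [Pi.add_apply]
      ring)
    (by
      intro x
      have h := (hE x).mul (((((d0 x).const_mul a).add (d1 x)).const_mul a).add
        (((d1 x).const_mul a).add (d2 x)))
      refine h.congr_deriv ?_
      simp only [Pi.add_apply]
      ring)
    (by
      intro x
      have := hu x
      positivity)
    (by
      intro x
      have h := hulc x
      have hp : 0 < Real.exp (a * x) ^ 2 := by positivity
      have e : (Real.exp (a * x) * (a * (a * G x + G1 x) + (a * G1 x + G2 x))) ^ 2 -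
          Real.exp (a * x) * (a * G x + G1 x) * (Real.exp (a * x) * (a ^ 2 * (a * G x + G1 x) +
            2 * a * (a * G1 x + G2 x) + (a * G2 x + G3 x))) =
          Real.exp (a * x) ^ 2 * ((a * G1 x + G2 x) ^ 2 -
            (a * G x + G1 x) * (a * G2 x + G3 x)) := by ring
      have : 0 ≤ Real.exp (a * x) ^ 2 * ((a * G1 x + G2 x) ^ 2 -
            (a * G x + G1 x) * (a * G2 x + G3 x)) := by
        apply mul_nonneg hp.le; linarith
      linarith)
    (by
      obtain ⟨C, hC⟩ := hFAST 0 0 le_rfl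
      have h1 : Tendsto (fun x : ℝ => Real.exp (a * x)) atBot (𝓝 0) :=
        Real.tendsto_exp_atBot.comp (tendsto_id.const_mul_atBot ha0)
      apply squeeze_zero_norm (a := fun x => Real.exp (a * x) * C)
      · intro x
        rw [norm_mul, Real.norm_eq_abs, Real.norm_eq_abs, abs_of_pos (Real.exp_pos _)]
        have := hC x
        rw [zero_mul, Real.exp_zero, mul_one] at this
        gcongr
      · simpa using h1.mul_const C)
  obtain ⟨hMpos, -, hstrict⟩ := hA
  have hs := hstrict (by
    intro l hl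
    obtain ⟨C, hC⟩ := hFAST l 0 hl.le
    obtain ⟨C', hC'⟩ := hFAST l 1 hl.le
    have h1 : Tendsto (fun x : ℝ => Real.exp (a * x)) atBot (𝓝 0) :=
      Real.tendsto_exp_atBot.comp (tendsto_id.const_mul_atBot ha0)
    apply squeeze_zero_norm (a := fun x => Real.exp (a * x) * (a * C + C'))
    · intro x
      rw [norm_mul, norm_mul, Real.norm_eq_abs, Real.norm_eq_abs, Real.norm_eq_abs,
        abs_of_pos (Real.exp_pos _), abs_of_pos (Real.exp_pos _)]
      have h2 : |a * G x + G1 x| ≤ (a * C + C') * Real.exp (l * x) := by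
        calc |a * G x + G1 x| ≤ |a * G x| + |G1 x| := abs_add_le _ _
          _ = a * |G x| + |G1 x| := by rw [abs_mul, abs_of_pos ha0]
          _ ≤ a * (C * Real.exp (l * x)) + C' * Real.exp (l * x) := by
            gcongr
            · exact hC x
            · exact hC' x
          _ = _ := by ring
      calc Real.exp (-(l * x)) * (Real.exp (a * x) * |a * G x + G1 x|)
          ≤ Real.exp (-(l * x)) * (Real.exp (a * x) * ((a * C + C') * Real.exp (l * x))) := by
            gcongr
        _ = Real.exp (a * x) * (a * C + C') * (Real.exp (-(l * x)) * Real.exp (l * x)) := by ring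
        _ = Real.exp (a * x) * (a * C + C') := by
            rw [← Real.exp_add]; simp
    · simpa using h1.mul_const (a * C + C'))
  refine ⟨?_, ?_⟩
  · intro x
    have := hMpos x
    exact (mul_pos_iff_of_pos_left (Real.exp_pos _)).mp this
  · intro x
    have h := hs x
    have hp : 0 < Real.exp (a * x) ^ 2 := by positivity
    have e : (Real.exp (a * x) * (a * G x + G1 x)) ^ 2 - Real.exp (a * x) * G x *
        (Real.exp (a * x) * (a * (a * G x + G1 x) + (a * G1 x + G2 x))) =
        Real.exp (a * x) ^ 2 * (G1 x ^ 2 - G x * G2 x) := by ring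
    have h2 : 0 < Real.exp (a * x) ^ 2 * (G1 x ^ 2 - G x * G2 x) := by
      rw [← e]; linarith
    have h3 := (mul_pos_iff_of_pos_left hp).mp h2
    linarith

theorem chernoff_all : ∃ c : ℝ, 0 < c ∧ (∀ t, 0 < fZ t) ∧ ContDiff ℝ 2 fZ ∧
      (∀ t, c ≤ -(iteratedDeriv 2 (fun s => Real.log (fZ s)) t)) ∧
      ConvexOn ℝ Set.univ (fun t => -Real.log (fZ t) - c / 2 * t ^ 2) := by
  have hTR := t_TR
  have hLEMA := t_LEMA
  have hCLOSE := t_CLOSE hTR hLEMA
  have hGAUSS := t_GAUSS hTR
  have hMID := t_MID hTR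
  have hPOLY := t_POLY hCLOSE
  have hLIMIT := t_LIMIT hPOLY hGAUSS hMID
  have hFDEF := t_FDEF t_GROW
  have hDECAY := t_DECAY t_AILOW
  have hPH := t_PH hDECAY hFDEF hTR
  have hSHIFT := t_SHIFT hDECAY
  have hFAST := t_FAST hSHIFT hDECAY
  have hTAIL := t_TAIL hSHIFT (t_KERB t_AILOW) t_KERL hTR hPH
  exact t_FINAL hTR hPH hTAIL (t_G hTR hLEMA hLIMIT t_ENT t_POS hFDEF hPH hFAST hTAIL) t_SCALE t_FIN

theorem gG_im (t : ℝ) : (gG t).im = 0 := by
  have hTR := t_TR
  have hPH := t_PH (t_DECAY t_AILOW) (t_FDEF t_GROW) hTR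
  rw [t_SCALE t, (hTR ph0 hPH.1 0).2.1, ← Complex.ofReal_mul, Complex.ofReal_im]

theorem fZ_eq (t : ℝ) : ((fZ t : ℝ) : ℂ) = (1 / 2) * gG t * gG (-t) := by
  have h : ∀ s, ((gG s).re : ℂ) = gG s := by
    intro s
    apply Complex.ext <;> simp [gG_im s]
  unfold fZ
  push_cast
  rw [h, h]

end Pool.Agent.KS6_98.CH
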