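import Mathlib

/-!
# Densities of product measures
-/

set_option autoImplicit false

open MeasureTheory Set
open scoped ENNReal

namespace Pool.Agent.KS6_98.PiDens

variable {X : Type*} [MeasurableSpace X]

theorem lintegral_pi_prod (n : ℕ) (μ : Measure X) [SigmaFinite μ] (g : Fin n → X → ℝ≥0∞)
    (hg : ∀ i, Measurable (g i)) :
    ∫⁻ x, ∏ i, g i (x i) ∂(Measure.pi (fun _ : Fin n => μ)) = ∏ i, ∫⁻ z, g i z ∂μ := by
  induction n with
  | zero => simp
  | succ n ih =>
    have hmp := (measurePreserving_piFinSuccAbove (fun _ : Fin (n + 1) => μ) 0).symm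
    rw [← hmp.lintegral_comp_emb (MeasurableEquiv.measurableEmbedding _)]
    simp_rw [MeasurableEquiv.piFinSuccAbove_symm_apply, Fin.insertNthEquiv,
      Fin.prod_univ_succ, Fin.insertNth_zero, Equiv.coe_fn_mk, Fin.cons_succ, Fin.cons_zero]
    rw [← ih (fun i => g i.succ) (fun i => hg _)]
    rw [← lintegral_prod_mul (hg 0).aemeasurable]
    · rfl
    · apply Measurable.aemeasurable
      apply Finset.measurable_fun_prod
      intro i _
      exact (hg i.succ).comp (measurable_pi_apply i)

theorem pi_withDensity (n : ℕ) (μ : Measure X) [SigmaFinite μ] (u : X → ℝ≥0∞)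
    (hu : Measurable u) [SigmaFinite (μ.withDensity u)] :
    Measure.pi (fun _ : Fin n => μ.withDensity u) =
      (Measure.pi (fun _ : Fin n => μ)).withDensity (fun x => ∏ i, u (x i)) := by
  symm
  apply (Measure.pi_eq _).symm
  intro s hs
  rw [withDensity_apply _ (MeasurableSet.univ_pi hs),
    ← lintegral_indicator (MeasurableSet.univ_pi hs)]
  have h1 : (Set.univ.pi s).indicator (fun x : Fin n → X => ∏ i, u (x i)) =
      fun x => ∏ i, (s i).indicator u (x i) := by
    funext x
    by_cases hx : x ∈ Set.univ.pi s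
    · rw [Set.indicator_of_mem hx]
      apply Finset.prod_congr rfl
      intro i _
      rw [Set.indicator_of_mem (hx i (Set.mem_univ i))]
    · rw [Set.indicator_of_notMem hx]
      symm
      rw [Set.mem_univ_pi] at hx
      push Not at hx
      obtain ⟨i, hi⟩ := hx
      exact Finset.prod_eq_zero (Finset.mem_univ i) (Set.indicator_of_notMem hi _)
  rw [h1, lintegral_pi_prod n μ (fun i => (s i).indicator u) (fun i => hu.indicator (hs i))]
  apply Finset.prod_congr rfl
  intro i _
  rw [withDensity_apply _ (hs i), lintegral_indicator (hs i)]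

/-- a set which is avoided by all coordinates costs at most `n μ C` -/
theorem pi_some_mem_le (n : ℕ) (μ : Measure X) [IsProbabilityMeasure μ] (C : Set X)
    (hC : MeasurableSet C) :
    Measure.pi (fun _ : Fin n => μ) {x | ∃ i, x i ∈ C} ≤ n * μ C := by
  have h1 : {x : Fin n → X | ∃ i, x i ∈ C} = ⋃ i, (fun x : Fin n → X => x i) ⁻¹' C := by
    ext x; simp
  rw [h1]
  refine (measure_iUnion_le _).trans ?_
  rw [tsum_fintype]
  have h2 : ∀ i : Fin n, Measure.pi (fun _ : Fin n => μ) ((fun x : Fin n → X => x i) ⁻¹' C) = μ C := by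
    intro i
    have := (measurePreserving_eval (fun _ : Fin n => μ) i)
    exact this.measure_preimage hC.nullMeasurableSet
  simp_rw [h2]
  simp

/-- Two product laws that agree off `C` give close (outer) probabilities. -/
theorem pi_le_add (n : ℕ) (μ ν : Measure X) [IsProbabilityMeasure μ] [IsProbabilityMeasure ν]
    (C : Set X) (hC : MeasurableSet C) (h : μ.restrict Cᶜ = ν.restrict Cᶜ)
    (E : Set (Fin n → X)) :
    Measure.pi (fun _ : Fin n => μ) E ≤ Measure.pi (fun _ : Fin n => ν) E + n * μ C := by
  set G : Set (Fin n → X) := Set.univ.pi (fun _ => Cᶜ) with hG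
  have hGm : MeasurableSet G := MeasurableSet.univ_pi (fun _ => hC.compl)
  have h1 : (Measure.pi (fun _ : Fin n => μ)).restrict G = (Measure.pi (fun _ : Fin n => ν)).restrict G := by
    rw [hG, Measure.restrict_pi_pi, Measure.restrict_pi_pi]
    simp_rw [h]
  have h2 : Measure.pi (fun _ : Fin n => μ) Gᶜ ≤ n * μ C := by
    refine le_trans (measure_mono ?_) (pi_some_mem_le n μ C hC)
    intro x hx
    rw [hG, Set.mem_compl_iff, Set.mem_univ_pi] at hx
    push Not at hx
    simpa using hx
  calc Measure.pi (fun _ : Fin n => μ) E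
      ≤ Measure.pi (fun _ : Fin n => μ) (E ∩ G) + Measure.pi (fun _ : Fin n => μ) (E \ G) :=
        measure_le_inter_add_sdiff _ _ _
    _ ≤ Measure.pi (fun _ : Fin n => ν) E + n * μ C := by
        refine add_le_add ?_ ?_
        · rw [← Measure.restrict_apply' hGm, h1, Measure.restrict_apply' hGm]
          exact measure_mono Set.inter_subset_left
        · exact (measure_mono (fun x hx => hx.2)).trans h2

end Pool.Agent.KS6_98.PiDens
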