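import Pool.Agent.KS6_98.SmuMix

/-!
# No estimator attains the rate `n^{-1/3} (log n)^γ` on scale mixtures of uniforms, `d = 3`
-/

set_option autoImplicit false
set_option linter.style.haveILetI false

open MeasureTheory Set Filter Topology
open scoped ENNReal

namespace Pool.Agent.KS6_98.SMU

/-- threshold of the local squared distance -/
noncomputable def dl (t m k : ℕ) : ℝ := (t ^ 2 : ℕ) * cc m k * sd m k ^ 3 / 2

/-- the bad event at scale `k` -/
def Bad (m : ℕ → ℕ) (t k : ℕ) {n : ℕ} (T : (Fin n → P3) → P3 → ℝ) (θ : Th m) : Set (Fin n → P3) :=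
  {x | ENNReal.ofReal (dl t (m k) k) <
    ∫⁻ z in UU (m k) k, ENNReal.ofReal ((√(T x z) - √(ff m θ z)) ^ 2)}

theorem Bad_congr (m : ℕ → ℕ) (t k : ℕ) {n : ℕ} (T : (Fin n → P3) → P3 → ℝ) (θ θ' : Th m)
    (h : θ k = θ' k) : Bad m t k T θ = Bad m t k T θ' := by
  unfold Bad
  ext x
  simp only [Set.mem_ofPred_eq]
  rw [setLIntegral_congr_fun (g := fun z => ENNReal.ofReal ((√(T x z) - √(ff m θ' z)) ^ 2))
    (measurableSet_UU _ _)]
  intro z hz
  simp only
  unfold UU at hz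
  obtain ⟨p, hp⟩ := Set.mem_iUnion.mp hz
  obtain ⟨s, hs⟩ := Set.mem_iUnion.mp hp
  rw [ff_on m θ k p s z hs, ff_on m θ' k p s z hs, h]

theorem cc_pos (m k : ℕ) (hm : 0 < m) : 0 < cc m k := by
  have hm' : (0 : ℝ) < m := by exact_mod_cast hm
  unfold cc
  positivity

theorem CC_disj (m k : ℕ) (p : Fin m × Fin m) (t : Bool) (p' : Fin m × Fin m) (t' : Bool)
    (h : (p, t) ≠ (p', t')) : Disjoint (CC m k p t) (CC m k p' t') := by
  rw [Set.disjoint_left]
  intro x hx hx'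
  obtain ⟨i, hi⟩ := sep_same m k p p' t t' h x hx
  have := ((mem_cube _ _ _).mp hx' i).2
  linarith

theorem bad_scale (m : ℕ → ℕ) (k t : ℕ) (ht : 1 ≤ t) (hmk : m k = 4 * t) (θ : Th m)
    (T : (Fin (nn (m k) k) → P3) → P3 → ℝ) (hT : ∀ x, Measurable (T x)) :
    ∃ b : Fin (m k) × Fin (m k) → Bool, (3 / 4 : ℝ≥0∞) ≤
      Measure.pi (fun _ : Fin (nn (m k) k) => mu m (Function.update θ k b))
        (Bad m t k T (Function.update θ k b)) := by
  have hm0 : 0 < m k := by omega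
  have ha : 0 < sd (m k) k ^ 3 := pow_pos (sd_pos _ _) 3
  have h := Assouad.exists_bad (X := P3) volume (CC (m k) k) (sd (m k) k ^ 3) (cc (m k) k)
    (fun b => ff m (Function.update θ k b)) (t ^ 2) (Nat.one_le_pow _ _ ht)
    (by rw [Fintype.card_prod, Fintype.card_fin, hmk]; ring)
    (measurableSet_CC (m k) k) (CC_disj (m k) k) ha (cc_pos _ _ hm0)
    (fun p s => volume_cube _ _ (sd_pos _ _).le)
    (fun b => measurable_ff _ _)
    (by
      intro b p z hz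
      rw [ff_on m _ k p (b p) z hz, Function.update_self, if_pos rfl])
    (by
      intro b p z hz
      rw [ff_on m _ k p (!b p) z hz, Function.update_self, if_neg (by simp)])
    (by
      intro b b' z hz
      apply ff_congr
      intro j
      by_cases hj : j = k
      · subst hj
        exact Or.inr hz
      · left
        rw [Function.update_of_ne hj, Function.update_of_ne hj])
    (fun b => lintegral_ff _ _) (nn (m k) k) (nn_mul _ _ hm0).le T hT
  obtain ⟨b, hb⟩ := h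
  exact ⟨b, hb⟩

theorem nn_ge (m k : ℕ) : 2 ^ (4 * k + 7) * m ^ 2 * m ≤ nn m k := by
  unfold nn
  apply Nat.mul_le_mul_left
  calc m ≤ 3 * m + 1 := by omega
    _ ≤ (3 * m + 1) ^ 3 := Nat.le_self_pow (by norm_num) _

/-- cubes of all scales beyond `k` -/
def tailU (m : ℕ → ℕ) (k : ℕ) : Set P3 := ⋃ j : ℕ, UU (m (k + 1 + j)) (k + 1 + j)

theorem measurableSet_tailU (m : ℕ → ℕ) (k : ℕ) : MeasurableSet (tailU m k) :=
  MeasurableSet.iUnion (fun _ => measurableSet_UU _ _)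

theorem mem_tailU (m : ℕ → ℕ) (k j : ℕ) (hj : k < j) (p : Fin (m j) × Fin (m j)) (s : Bool)
    (z : P3) (hz : z ∈ CC (m j) j p s) : z ∈ tailU m k := by
  obtain ⟨i, hi⟩ := Nat.exists_eq_add_of_lt hj
  have hji : j = k + 1 + i := by omega
  subst hji
  exact Set.mem_iUnion.mpr ⟨i, Set.mem_iUnion.mpr ⟨p, Set.mem_iUnion.mpr ⟨s, hz⟩⟩⟩

theorem tail_mass (m : ℕ → ℕ) (hm : ∀ k, 0 < m k) (hgrow : ∀ j k, k < j → nn (m k) k ≤ m j)
    (θ : Th m) (k : ℕ) :
    (nn (m k) k : ℝ≥0∞) * mu m θ (tailU m k) ≤ 1 / 4 := by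
  have h1 : ∀ j : ℕ, (nn (m k) k : ℝ) * (2 * (m (k + 1 + j)) ^ 2 *
      (cc (m (k + 1 + j)) (k + 1 + j) * sd (m (k + 1 + j)) (k + 1 + j) ^ 3)) ≤
      (1 / 2) ^ (j + 3) := by
    intro j
    set J := k + 1 + j with hJ
    have hmJ := hm J
    have hmJ' : (0 : ℝ) < m J := by exact_mod_cast hmJ
    have e := nn_mul (m J) J hmJ
    have hnJ : 2 ^ (4 * J + 7) * (m J) ^ 2 * (m J) ≤ nn (m J) J := nn_ge _ _
    have hnJ' : (2 : ℝ) ^ (4 * J + 7) * (m J) ^ 2 * (m J) ≤ nn (m J) J := by exact_mod_cast hnJ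
    have hnpos : (0 : ℝ) < nn (m J) J := lt_of_lt_of_le (by positivity) hnJ'
    have hx : cc (m J) J * sd (m J) J ^ 3 = 1 / (16 * nn (m J) J) := by
      field_simp
      linarith
    rw [hx]
    have hg : (nn (m k) k : ℝ) ≤ m J := by exact_mod_cast hgrow J k (by omega)
    calc (nn (m k) k : ℝ) * (2 * (m J) ^ 2 * (1 / (16 * nn (m J) J)))
        ≤ m J * (2 * (m J) ^ 2 * (1 / (16 * (2 ^ (4 * J + 7) * (m J) ^ 2 * (m J))))) := by
          gcongr
      _ = 1 / (8 * 2 ^ (4 * J + 7)) := by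
          field_simp
          norm_num
      _ ≤ (1 / 2) ^ (j + 3) := by
          rw [div_pow, one_pow]
          apply one_div_le_one_div_of_le (by positivity)
          calc (2 : ℝ) ^ (j + 3) ≤ 2 ^ (4 * J + 7) := by
                apply pow_le_pow_right₀ (by norm_num)
                omega
            _ ≤ 8 * 2 ^ (4 * J + 7) := by
                have : (0 : ℝ) < 2 ^ (4 * J + 7) := by positivity
                linarith
  have hsum : Summable (fun j : ℕ => (1 / 2 : ℝ) ^ (j + 3)) := by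
    simp_rw [pow_add]
    exact (summable_geometric_of_lt_one (by norm_num) (by norm_num)).mul_right _
  have htsum : ∑' j : ℕ, (1 / 2 : ℝ) ^ (j + 3) = 1 / 4 := by
    simp_rw [pow_add]
    rw [tsum_mul_right, tsum_geometric_of_lt_one (by norm_num) (by norm_num)]
    norm_num
  calc (nn (m k) k : ℝ≥0∞) * mu m θ (tailU m k)
      ≤ (nn (m k) k : ℝ≥0∞) * ∑' j : ℕ, ENNReal.ofReal (2 * (m (k + 1 + j)) ^ 2 *
        (cc (m (k + 1 + j)) (k + 1 + j) * sd (m (k + 1 + j)) (k + 1 + j) ^ 3)) := by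
        gcongr
        refine (measure_iUnion_le _).trans ?_
        exact ENNReal.tsum_le_tsum (fun j => mu_UU_le m θ (k + 1 + j))
    _ = ∑' j : ℕ, ENNReal.ofReal ((nn (m k) k : ℝ) * (2 * (m (k + 1 + j)) ^ 2 *
        (cc (m (k + 1 + j)) (k + 1 + j) * sd (m (k + 1 + j)) (k + 1 + j) ^ 3))) := by
        rw [← ENNReal.tsum_mul_left]
        apply tsum_congr
        intro j
        rw [ENNReal.ofReal_mul (Nat.cast_nonneg _), ENNReal.ofReal_natCast]
    _ ≤ ∑' j : ℕ, ENNReal.ofReal ((1 / 2) ^ (j + 3)) :=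
        ENNReal.tsum_le_tsum (fun j => ENNReal.ofReal_le_ofReal (h1 j))
    _ = 1 / 4 := by
        rw [← ENNReal.ofReal_tsum_of_nonneg (fun k => by positivity) hsum, htsum,
          ENNReal.ofReal_div_of_pos (by norm_num)]
        simp

theorem ff_eq_off_tail (m : ℕ → ℕ) (θ θ' : Th m) (k : ℕ) (h : ∀ j ≤ k, θ j = θ' j) (z : P3)
    (hz : z ∉ tailU m k) : ff m θ z = ff m θ' z := by
  apply ff_congr
  intro j
  by_cases hj : j ≤ k
  · exact Or.inl (h j hj)
  · exact Or.inr (fun p s hzc => hz (mem_tailU m k j (not_le.mp hj) p s z hzc))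

theorem mu_restrict (m : ℕ → ℕ) (θ θ' : Th m) (k : ℕ) (h : ∀ j ≤ k, θ j = θ' j) :
    (mu m θ).restrict (tailU m k)ᶜ = (mu m θ').restrict (tailU m k)ᶜ := by
  have hms : MeasurableSet (tailU m k)ᶜ := (measurableSet_tailU m k).compl
  unfold mu
  rw [restrict_withDensity hms, restrict_withDensity hms]
  apply withDensity_congr_ae
  rw [Filter.EventuallyEq, ae_restrict_iff' hms]
  refine Filter.Eventually.of_forall ?_
  intro z hz
  rw [ff_eq_off_tail m θ θ' k h z hz]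

theorem exists_theta (m tt : ℕ → ℕ) (htt : ∀ k, 1 ≤ tt k) (hmt : ∀ k, m k = 4 * tt k)
    (hgrow : ∀ j k, k < j → nn (m k) k ≤ m j)
    (T : ∀ n : ℕ, (Fin n → P3) → P3 → ℝ) (hT : ∀ n x, Measurable (T n x)) :
    ∃ θ : Th m, ∀ k, (1 / 2 : ℝ≥0∞) ≤ Measure.pi (fun _ : Fin (nn (m k) k) => mu m θ)
      (Bad m (tt k) k (T (nn (m k) k)) θ) := by
  have hm0 : ∀ k, 0 < m k := fun k => by have := htt k; have := hmt k; omega
  choose bb hbb using fun (k : ℕ) (θ : Th m) =>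
    bad_scale m k (tt k) (htt k) (hmt k) θ (T (nn (m k) k)) (hT _)
  let sq : ℕ → Th m := fun n => Nat.rec (fun _ _ => true)
    (fun k θ => Function.update θ k (bb k θ)) n
  have hsq : ∀ k, sq (k + 1) = Function.update (sq k) k (bb k (sq k)) := fun k => rfl
  have hstab : ∀ k i, sq (k + 1 + i) k = sq (k + 1) k := by
    intro k i
    induction i with
    | zero => rfl
    | succ i ih =>
      rw [← ih]
      have : sq (k + 1 + (i + 1)) = Function.update (sq (k + 1 + i)) (k + 1 + i)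
        (bb (k + 1 + i) (sq (k + 1 + i))) := hsq (k + 1 + i)
      rw [this, Function.update_of_ne (by omega)]
  refine ⟨fun k => sq (k + 1) k, ?_⟩
  intro k
  set θ : Th m := fun k => sq (k + 1) k with hθ
  have hagree : ∀ j ≤ k, sq (k + 1) j = θ j := by
    intro j hj
    obtain ⟨i, hi⟩ := Nat.exists_eq_add_of_le hj
    have : k + 1 = j + 1 + i := by omega
    rw [this]
    exact hstab j i
  have hb : (3 / 4 : ℝ≥0∞) ≤ Measure.pi (fun _ : Fin (nn (m k) k) => mu m (sq (k + 1)))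
      (Bad m (tt k) k (T (nn (m k) k)) (sq (k + 1))) := by
    rw [hsq k]
    exact hbb k (sq k)
  rw [Bad_congr m (tt k) k (T (nn (m k) k)) (sq (k + 1)) θ (hagree k le_rfl)] at hb
  have hle := PiDens.pi_le_add (nn (m k) k) (mu m (sq (k + 1))) (mu m θ)
    (tailU m k) (measurableSet_tailU m k)
    (mu_restrict m (sq (k + 1)) θ k hagree) (Bad m (tt k) k (T (nn (m k) k)) θ)
  have htail := tail_mass m hm0 hgrow (sq (k + 1)) k
  have hfin := hb.trans (hle.trans (add_le_add_right htail _))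
  have e : (3 / 4 : ℝ≥0∞) = 1 / 2 + 1 / 4 := by
    have h4 : (3 / 4 : ℝ≥0∞) = ENNReal.ofReal (3 / 4) := by
      rw [ENNReal.ofReal_div_of_pos (by norm_num)]; simp
    have h5 : (1 / 4 : ℝ≥0∞) = ENNReal.ofReal (1 / 4) := by
      rw [ENNReal.ofReal_div_of_pos (by norm_num)]; simp
    have h6 : (1 / 2 : ℝ≥0∞) = ENNReal.ofReal (1 / 2) := by
      rw [ENNReal.ofReal_div_of_pos (by norm_num)]; simp
    rw [h4, h5, h6, ← ENNReal.ofReal_add (by norm_num) (by norm_num)]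
    congr 1
    norm_num
  rw [e] at hfin
  exact (ENNReal.add_le_add_iff_right (by norm_num)).mp hfin

/-- Hellinger distance, `h² = (1/2) ∫ (√f - √g)²` -/
noncomputable def hell {d : ℕ} (f g : (Fin d → ℝ) → ℝ) : ℝ≥0∞ :=
  (2⁻¹ * ∫⁻ z, ENNReal.ofReal ((√(f z) - √(g z)) ^ 2)) ^ (1 / 2 : ℝ)

theorem lt_hell {d : ℕ} (f g : (Fin d → ℝ) → ℝ) (a : ℝ)
    (h : ENNReal.ofReal (2 * a ^ 2) < ∫⁻ z, ENNReal.ofReal ((√(f z) - √(g z)) ^ 2)) :
    ENNReal.ofReal a < hell f g := by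
  unfold hell
  have h1 : ENNReal.ofReal (a ^ 2) < 2⁻¹ * ∫⁻ z, ENNReal.ofReal ((√(f z) - √(g z)) ^ 2) := by
    rw [ENNReal.ofReal_mul (by norm_num), ENNReal.ofReal_ofNat] at h
    have h2 : (2 : ℝ≥0∞)⁻¹ * (2 * ENNReal.ofReal (a ^ 2)) <
        2⁻¹ * ∫⁻ z, ENNReal.ofReal ((√(f z) - √(g z)) ^ 2) :=
      (ENNReal.mul_lt_mul_iff_right (by norm_num) (by norm_num)).mpr h
    rwa [← mul_assoc, ENNReal.inv_mul_cancel (by norm_num) (by norm_num), one_mul] at h2
  have h3 : ENNReal.ofReal a ≤ (ENNReal.ofReal (a ^ 2)) ^ (1 / 2 : ℝ) := by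
    rw [ENNReal.ofReal_rpow_of_nonneg (by positivity) (by norm_num)]
    apply ENNReal.ofReal_le_ofReal
    rw [← Real.sqrt_eq_rpow, Real.sqrt_sq_eq_abs]
    exact le_abs_self a
  exact h3.trans_lt (ENNReal.rpow_lt_rpow h1 (by norm_num))

theorem nn_le (m k : ℕ) (hm : 1 ≤ m) : nn m k ≤ 2 ^ (4 * k + 13) * m ^ 5 := by
  unfold nn
  calc 2 ^ (4 * k + 7) * m ^ 2 * (3 * m + 1) ^ 3 ≤ 2 ^ (4 * k + 7) * m ^ 2 * (4 * m) ^ 3 := by
        gcongr
        omega
    _ = 2 ^ (4 * k + 13) * m ^ 5 := by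
        rw [show 4 * k + 13 = (4 * k + 7) + 6 by omega, pow_add 2 (4 * k + 7) 6]
        ring

/-- **Main theorem**: for every sequence of estimators there is a bounded, compactly supported
scale mixture of uniforms in dimension three at which the Hellinger rate is not `ρ n`, whenever
`ρ n = o(n^{-3/10})`. -/
theorem main (T : ∀ n : ℕ, (Fin n → P3) → P3 → ℝ) (hT : ∀ n x, Measurable (T n x))
    (ρ : ℕ → ℝ) (hρ : Tendsto (fun n : ℕ => ρ n * (n : ℝ) ^ (3 / 10 : ℝ)) atTop (𝓝 0)) :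
    ∃ G : Measure P3, IsProbabilityMeasure G ∧ G {y | ∀ i, 0 < y i}ᶜ = 0 ∧
      (∀ x, smu G x ≤ 3) ∧ (∀ x i, 1 < x i → smu G x = 0) ∧
      ∀ (K : ℝ) (N : ℕ), ∃ n, N ≤ n ∧ (1 / 2 : ℝ≥0∞) ≤
        Measure.pi (fun _ : Fin n => volume.withDensity (fun z => ENNReal.ofReal (smu G z)))
          {x | ENNReal.ofReal (K * ρ n) < hell (T n x) (smu G)} := by
  have hR : ∀ k : ℕ, ∃ R : ℕ, ∀ n ≥ R, |ρ n * (n : ℝ) ^ (3 / 10 : ℝ)| ≤
      (1 / 2) ^ (4 * k + 18) / (k + 1) := by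
    intro k
    have hpos : (0 : ℝ) < (1 / 2) ^ (4 * k + 18) / (k + 1) := by positivity
    have := (Metric.tendsto_atTop.mp hρ) _ hpos
    obtain ⟨R, hR⟩ := this
    refine ⟨R, fun n hn => ?_⟩
    have := hR n hn
    rw [Real.dist_eq, sub_zero] at this
    exact this.le
  choose R hR using hR
  let tt : ℕ → ℕ := fun n => Nat.rec (R 0 + 1)
    (fun k t => nn (4 * t) k + R (k + 1) + k + 2) n
  have htt0 : tt 0 = R 0 + 1 := rfl
  have htts : ∀ k, tt (k + 1) = nn (4 * tt k) k + R (k + 1) + k + 2 := fun k => rfl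
  have htt1 : ∀ k, 1 ≤ tt k := by
    intro k
    cases k with
    | zero => rw [htt0]; omega
    | succ k => rw [htts]; omega
  have httR : ∀ k, R k ≤ tt k := by
    intro k
    cases k with
    | zero => rw [htt0]; omega
    | succ k => rw [htts]; omega
  have httk : ∀ k, k ≤ tt k := by
    intro k
    cases k with
    | zero => omega
    | succ k => rw [htts]; omega
  set m : ℕ → ℕ := fun k => 4 * tt k with hm
  have hmn : ∀ k, m k ≤ nn (m k) k := by
    intro k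
    have h1 := nn_ge (m k) k
    have h2 : 1 ≤ m k := by have := htt1 k; simp only [hm]; omega
    have h3 : 1 ≤ 2 ^ (4 * k + 7) * (m k) ^ 2 := Nat.one_le_iff_ne_zero.mpr (by positivity)
    calc m k = 1 * m k := (one_mul _).symm
      _ ≤ 2 ^ (4 * k + 7) * (m k) ^ 2 * m k := Nat.mul_le_mul_right _ h3
      _ ≤ _ := h1
  have hstep : ∀ k, nn (m k) k ≤ m (k + 1) := by
    intro k
    have : m (k + 1) = 4 * (nn (m k) k + R (k + 1) + k + 2) := by
      simp only [hm]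
      rw [htts]
    omega
  have hgrow : ∀ j k, k < j → nn (m k) k ≤ m j := by
    intro j k hjk
    obtain ⟨i, hi⟩ := Nat.exists_eq_add_of_lt hjk
    subst hi
    induction i with
    | zero => exact hstep k
    | succ i ih =>
      refine (ih (by omega)).trans ((hmn (k + i + 1)).trans ?_)
      exact hstep (k + i + 1)
  obtain ⟨θ, hθ⟩ := exists_theta m tt htt1 (fun k => rfl) hgrow T hT
  refine ⟨GG m θ, isProb_GG m θ, GG_pos m θ, ff_bdd m θ, fun x i hi => ff_supp m θ x i hi, ?_⟩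
  intro K N
  obtain ⟨k, hk1, hk2⟩ : ∃ k : ℕ, |K| ≤ k ∧ N ≤ k := by
    obtain ⟨k, hk⟩ := exists_nat_ge |K|
    exact ⟨max k N, hk.trans (by exact_mod_cast le_max_left k N), le_max_right k N⟩
  have hmk1 : 1 ≤ m k := by have := htt1 k; simp only [hm]; omega
  have hmk0 : (0 : ℝ) < m k := by exact_mod_cast hmk1
  refine ⟨nn (m k) k, ?_, ?_⟩
  · have := hmn k
    have := httk k
    have : m k = 4 * tt k := rfl
    omega
  refine (hθ k).trans (measure_mono ?_)
  intro x hx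
  change ENNReal.ofReal (dl (tt k) (m k) k) <
    ∫⁻ z in UU (m k) k, ENNReal.ofReal ((√(T _ x z) - √(ff m θ z)) ^ 2) at hx
  apply lt_hell
  refine lt_of_le_of_lt ?_ (hx.trans_le (setLIntegral_le_lintegral _ _))
  apply ENNReal.ofReal_le_ofReal
  -- the arithmetic
  set n := nn (m k) k with hn
  have hnpos : (0 : ℝ) < n := by
    have := hmn k
    have h2 : 0 < n := by omega
    exact_mod_cast h2
  have hdl : dl (tt k) (m k) k = (m k : ℝ) ^ 2 / (512 * n) := by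
    have e := nn_mul (m k) k (by omega)
    rw [← hn] at e
    have hx2 : cc (m k) k * sd (m k) k ^ 3 = 1 / (16 * n) := by
      field_simp
      linarith
    have htm : ((tt k ^ 2 : ℕ) : ℝ) = (m k : ℝ) ^ 2 / 16 := by
      simp only [hm]
      push_cast
      ring
    unfold dl
    rw [htm, mul_assoc, hx2]
    field_simp
    norm_num
  rw [hdl]
  have hρn := hR k n (by
    have := hmn k
    have := httR k
    have : m k = 4 * tt k := rfl
    omega)
  rw [abs_mul, abs_of_nonneg (Real.rpow_nonneg hnpos.le _)] at hρn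
  have hn310 : (0 : ℝ) < (n : ℝ) ^ (3 / 10 : ℝ) := Real.rpow_pos_of_pos hnpos _
  have h1 : |K * ρ n| * (n : ℝ) ^ (3 / 10 : ℝ) ≤ (1 / 2) ^ (4 * k + 18) := by
    rw [abs_mul, mul_assoc]
    have hk3 : |K| ≤ (k : ℝ) + 1 := by linarith
    calc |K| * (|ρ n| * (n : ℝ) ^ (3 / 10 : ℝ)) ≤ ((k : ℝ) + 1) * ((1 / 2) ^ (4 * k + 18) / (k + 1)) := by
          gcongr
      _ = (1 / 2) ^ (4 * k + 18) := by field_simp
  have h2 : (K * ρ n) ^ 2 * ((n : ℝ) ^ (3 / 10 : ℝ)) ^ 2 ≤ ((1 / 2) ^ (4 * k + 18)) ^ 2 := by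
    rw [← sq_abs (K * ρ n), ← mul_pow]
    gcongr
  have h3 : ((n : ℝ) ^ (3 / 10 : ℝ)) ^ 2 * ((n : ℝ) ^ (2 / 5 : ℝ)) = n := by
    rw [← Real.rpow_natCast, ← Real.rpow_mul hnpos.le, ← Real.rpow_add hnpos]
    norm_num
  have h4 : (n : ℝ) ^ (2 / 5 : ℝ) ≤ 2 ^ (4 * k + 13) * (m k : ℝ) ^ 2 := by
    have hle : (n : ℝ) ≤ 2 ^ (4 * k + 13) * (m k : ℝ) ^ 5 := by
      exact_mod_cast nn_le (m k) k hmk1
    calc (n : ℝ) ^ (2 / 5 : ℝ) ≤ (2 ^ (4 * k + 13) * (m k : ℝ) ^ 5) ^ (2 / 5 : ℝ) :=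
          Real.rpow_le_rpow hnpos.le hle (by norm_num)
      _ = ((2 : ℝ) ^ (4 * k + 13)) ^ (2 / 5 : ℝ) * ((m k : ℝ) ^ 5) ^ (2 / 5 : ℝ) := by
          rw [Real.mul_rpow (by positivity) (by positivity)]
      _ ≤ 2 ^ (4 * k + 13) * (m k : ℝ) ^ 2 := by
          have e1 : ((m k : ℝ) ^ 5) ^ (2 / 5 : ℝ) = (m k : ℝ) ^ 2 := by
            rw [← Real.rpow_natCast, ← Real.rpow_natCast, ← Real.rpow_mul hmk0.le]
            norm_num
          have e2 : ((2 : ℝ) ^ (4 * k + 13)) ^ (2 / 5 : ℝ) ≤ (2 : ℝ) ^ (4 * k + 13) := by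
            calc ((2 : ℝ) ^ (4 * k + 13)) ^ (2 / 5 : ℝ) ≤ ((2 : ℝ) ^ (4 * k + 13)) ^ (1 : ℝ) :=
                  Real.rpow_le_rpow_of_exponent_le (one_le_pow₀ (by norm_num)) (by norm_num)
              _ = _ := Real.rpow_one _
          rw [e1]
          gcongr
  -- combine
  have hn25 : (0 : ℝ) < (n : ℝ) ^ (2 / 5 : ℝ) := Real.rpow_pos_of_pos hnpos _
  rw [le_div_iff₀ (by positivity)]
  calc 2 * (K * ρ n) ^ 2 * (512 * n)
      = 1024 * (K * ρ n) ^ 2 * n := by ring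
    _ = 1024 * (K * ρ n) ^ 2 * (((n : ℝ) ^ (3 / 10 : ℝ)) ^ 2 * ((n : ℝ) ^ (2 / 5 : ℝ))) := by
        rw [h3]
    _ = 1024 * ((K * ρ n) ^ 2 * ((n : ℝ) ^ (3 / 10 : ℝ)) ^ 2) * (n : ℝ) ^ (2 / 5 : ℝ) := by
        ring
    _ ≤ 1024 * (((1 / 2) ^ (4 * k + 18)) ^ 2) * (2 ^ (4 * k + 13) * (m k : ℝ) ^ 2) := by
        gcongr
    _ = (1024 * ((1 / 2) ^ (4 * k + 18)) ^ 2 * 2 ^ (4 * k + 13)) * (m k : ℝ) ^ 2 := by ring
    _ ≤ 1 * (m k : ℝ) ^ 2 := by
        gcongr
        rw [div_pow, one_pow, div_pow, one_pow, ← pow_mul, mul_one_div, div_mul_eq_mul_div,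
          div_le_one (by positivity)]
        have h10 : (2 : ℝ) ^ (4 * k + 23) = 2 ^ 10 * 2 ^ (4 * k + 13) := by
          rw [← pow_add]
          congr 1
          omega
        calc (1024 : ℝ) * 2 ^ (4 * k + 13) = 2 ^ (4 * k + 23) := by
              rw [h10]
              norm_num
          _ ≤ 2 ^ ((4 * k + 18) * 2) := by
              apply pow_le_pow_right₀ (by norm_num)
              omega
    _ = (m k : ℝ) ^ 2 := one_mul _

end Pool.Agent.KS6_98.SMU
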