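import Mathlib

/-!
# Scale mixtures of uniforms: cubes on antichains in dimension three
-/

set_option autoImplicit false

open MeasureTheory Set
open scoped ENNReal

namespace Pool.Agent.KS6_98.SMU

/-- the kernel `|y|^{-1} 1_{(0,y]}(x)` -/
noncomputable def ker {d : ℕ} (x y : Fin d → ℝ) : ℝ :=
  if ∀ i, 0 < x i ∧ x i ≤ y i then (∏ i, y i)⁻¹ else 0

/-- the mixture density -/
noncomputable def smu {d : ℕ} (G : Measure (Fin d → ℝ)) (x : Fin d → ℝ) : ℝ := ∫ y, ker x y ∂G

theorem ker_nonneg {d : ℕ} (x y : Fin d → ℝ) : 0 ≤ ker x y := by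
  unfold ker
  split_ifs with h
  · apply inv_nonneg.mpr
    exact Finset.prod_nonneg (fun i _ => (h i).1.le.trans (h i).2)
  · exact le_rfl

theorem smu_nonneg {d : ℕ} (G : Measure (Fin d → ℝ)) (x : Fin d → ℝ) : 0 ≤ smu G x :=
  integral_nonneg (fun y => ker_nonneg x y)

theorem measurableSet_le_prod {d : ℕ} :
    MeasurableSet {q : (Fin d → ℝ) × (Fin d → ℝ) | ∀ i, 0 < q.1 i ∧ q.1 i ≤ q.2 i} := by
  have : {q : (Fin d → ℝ) × (Fin d → ℝ) | ∀ i, 0 < q.1 i ∧ q.1 i ≤ q.2 i} =
      ⋂ i, ({q : (Fin d → ℝ) × (Fin d → ℝ) | 0 < q.1 i} ∩ {q | q.1 i ≤ q.2 i}) := by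
    ext q; simp
  rw [this]
  apply MeasurableSet.iInter
  intro i
  apply MeasurableSet.inter
  · exact measurableSet_lt measurable_const ((measurable_pi_apply i).comp measurable_fst)
  · exact measurableSet_le ((measurable_pi_apply i).comp measurable_fst)
      ((measurable_pi_apply i).comp measurable_snd)

theorem measurable_ker {d : ℕ} :
    Measurable (fun q : (Fin d → ℝ) × (Fin d → ℝ) => ker q.1 q.2) := by
  unfold ker
  apply Measurable.ite measurableSet_le_prod
  · apply Measurable.inv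
    apply Finset.measurable_fun_prod
    intro i _
    exact (measurable_pi_apply i).comp measurable_snd
  · exact measurable_const

theorem measurable_ker_right {d : ℕ} (x : Fin d → ℝ) : Measurable (fun y => ker x y) :=
  measurable_ker.comp (measurable_const.prodMk measurable_id)

theorem measurable_ker_left {d : ℕ} (y : Fin d → ℝ) : Measurable (fun x => ker x y) :=
  measurable_ker.comp (measurable_id.prodMk measurable_const)

theorem ker_bdd {d : ℕ} (x : Fin d → ℝ) : ∃ B : ℝ, ∀ y, ‖ker x y‖ ≤ B := by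
  refine ⟨|(∏ i, x i)⁻¹|, ?_⟩
  intro y
  unfold ker
  split_ifs with h
  · have hx : 0 < ∏ i, x i := Finset.prod_pos (fun i _ => (h i).1)
    have hxy : ∏ i, x i ≤ ∏ i, y i := Finset.prod_le_prod (fun i _ => (h i).1.le) (fun i _ => (h i).2)
    have hy : 0 < ∏ i, y i := hx.trans_le hxy
    rw [Real.norm_eq_abs, abs_of_pos (inv_pos.mpr hy), abs_of_pos (inv_pos.mpr hx)]
    exact inv_anti₀ hx hxy
  · simp

theorem ofReal_smu {d : ℕ} (G : Measure (Fin d → ℝ)) [IsFiniteMeasure G] (x : Fin d → ℝ) :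
    ENNReal.ofReal (smu G x) = ∫⁻ y, ENNReal.ofReal (ker x y) ∂G := by
  unfold smu
  rw [ofReal_integral_eq_lintegral_ofReal]
  · obtain ⟨B, hB⟩ := ker_bdd x
    exact Integrable.of_bound (measurable_ker_right x).aestronglyMeasurable B
      (Filter.Eventually.of_forall hB)
  · exact Filter.Eventually.of_forall (fun y => ker_nonneg x y)

theorem measurable_smu {d : ℕ} (G : Measure (Fin d → ℝ)) [IsFiniteMeasure G] :
    Measurable (smu G) := by
  have h1 : smu G = fun x => (∫⁻ y, ENNReal.ofReal (ker x y) ∂G).toReal := by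
    funext x
    rw [← ofReal_smu, ENNReal.toReal_ofReal (smu_nonneg G x)]
  rw [h1]
  apply Measurable.ennreal_toReal
  apply Measurable.lintegral_prod_right'
    (f := fun q : (Fin d → ℝ) × (Fin d → ℝ) => ENNReal.ofReal (ker q.1 q.2))
  exact measurable_ker.ennreal_ofReal

theorem lintegral_ker {d : ℕ} (y : Fin d → ℝ) (hy : ∀ i, 0 < y i) :
    ∫⁻ x, ENNReal.ofReal (ker x y) = 1 := by
  have h1 : ∀ x, ENNReal.ofReal (ker x y) =
      (Set.univ.pi (fun i => Ioc 0 (y i))).indicator (fun _ => ENNReal.ofReal (∏ i, y i)⁻¹) x := by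
    intro x
    unfold ker
    by_cases h : ∀ i, 0 < x i ∧ x i ≤ y i
    · rw [if_pos h, Set.indicator_of_mem]
      intro i _
      exact h i
    · rw [if_neg h, Set.indicator_of_notMem]
      · simp
      · intro hx
        exact h (fun i => hx i (Set.mem_univ i))
  simp_rw [h1]
  rw [lintegral_indicator_const (MeasurableSet.univ_pi (fun i => measurableSet_Ioc))]
  have h2 : volume (Set.univ.pi (fun i => Ioc (0 : ℝ) (y i))) = ENNReal.ofReal (∏ i, y i) := by
    rw [volume_pi_pi]
    simp_rw [Real.volume_Ioc, sub_zero]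
    rw [ENNReal.ofReal_prod_of_nonneg (fun i _ => (hy i).le)]
  rw [h2, ← ENNReal.ofReal_mul (by
    apply inv_nonneg.mpr
    exact Finset.prod_nonneg (fun i _ => (hy i).le))]
  rw [inv_mul_cancel₀ (Finset.prod_pos (fun i _ => hy i)).ne']
  simp

theorem lintegral_smu {d : ℕ} (G : Measure (Fin d → ℝ)) [IsProbabilityMeasure G]
    (hG : G {y | ∀ i, 0 < y i}ᶜ = 0) : ∫⁻ x, ENNReal.ofReal (smu G x) = 1 := by
  simp_rw [ofReal_smu]
  rw [lintegral_lintegral_swap]
  · have h1 : ∀ᵐ y ∂G, ∫⁻ x, ENNReal.ofReal (ker x y) = 1 := by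
      have : ∀ᵐ y ∂G, ∀ i, 0 < y i := by
        rw [ae_iff]; exact hG
      filter_upwards [this] with y hy
      exact lintegral_ker y hy
    rw [lintegral_congr_ae h1]
    simp
  · exact measurable_ker.ennreal_ofReal.aemeasurable

/-! ### cubes -/

abbrev P3 := Fin 3 → ℝ

/-- indicator of the box `(0,y]` -/
noncomputable def bx {d : ℕ} (y x : Fin d → ℝ) : ℝ := if ∀ i, 0 < x i ∧ x i ≤ y i then 1 else 0

theorem ker_mul {d : ℕ} (x y : Fin d → ℝ) (hy : ∀ i, 0 < y i) : (∏ i, y i) * ker x y = bx y x := by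
  unfold ker bx
  have : (∏ i, y i) ≠ 0 := (Finset.prod_pos (fun i _ => hy i)).ne'
  split_ifs
  · field_simp
  · simp

/-- vertex of a cube -/
noncomputable def vert (z : P3) (s : ℝ) (e : Fin 3 → Bool) : P3 := fun i => z i + if e i then s else 0

/-- four vertices of a given parity; `true` is the class of the top vertex -/
def vx (t : Bool) (r : Fin 4) : Fin 3 → Bool :=
  if t then ![![true, false, false], ![false, true, false], ![false, false, true],
    ![true, true, true]] r
  else ![![false, false, false], ![true, true, false], ![true, false, true],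
    ![false, true, true]] r

/-- sum of the box indicators of the four vertices -/
noncomputable def Fc (z : P3) (s : ℝ) (t : Bool) (x : P3) : ℝ := ∑ r, bx (vert z s (vx t r)) x

def cube (z : P3) (s : ℝ) : Set P3 := Set.univ.pi (fun i => Ioc (z i) (z i + s))

theorem mem_cube (z : P3) (s : ℝ) (x : P3) : x ∈ cube z s ↔ ∀ i, z i < x i ∧ x i ≤ z i + s := by
  simp [cube, Set.mem_pi]

theorem measurableSet_cube (z : P3) (s : ℝ) : MeasurableSet (cube z s) :=
  MeasurableSet.univ_pi (fun _ => measurableSet_Ioc)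

theorem volume_cube (z : P3) (s : ℝ) (hs : 0 ≤ s) : volume (cube z s) = ENNReal.ofReal (s ^ 3) := by
  unfold cube
  rw [volume_pi_pi]
  simp_rw [Real.volume_Ioc, add_sub_cancel_left]
  rw [Finset.prod_const, Finset.card_univ, Fintype.card_fin, ENNReal.ofReal_pow hs]

theorem Fc_nonneg (z : P3) (s : ℝ) (t : Bool) (x : P3) : 0 ≤ Fc z s t x := by
  unfold Fc bx
  apply Finset.sum_nonneg
  intro r _
  split_ifs <;> norm_num

theorem Fc_le (z : P3) (s : ℝ) (t : Bool) (x : P3) : Fc z s t x ≤ 4 := by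
  unfold Fc bx
  calc _ ≤ ∑ _r : Fin 4, (1 : ℝ) := by
        apply Finset.sum_le_sum
        intro r _
        split_ifs <;> norm_num
    _ = 4 := by simp

/-- points beyond the top vertex in one coordinate -/
theorem Fc_zero (z : P3) (s : ℝ) (hs : 0 ≤ s) (t : Bool) (x : P3) (i : Fin 3) (hx : z i + s < x i) :
    Fc z s t x = 0 := by
  unfold Fc
  apply Finset.sum_eq_zero
  intro r _
  unfold bx
  rw [if_neg]
  intro h
  have h1 := (h i).2
  unfold vert at h1
  split_ifs at h1 <;> linarith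

/-- one coordinate factor -/
noncomputable def gg (z : P3) (s : ℝ) (x : P3) (i : Fin 3) (t : Bool) : ℝ :=
  if 0 < x i ∧ x i ≤ z i + (if t then s else 0) then 1 else 0

theorem bx_vert (z : P3) (s : ℝ) (x : P3) (e : Fin 3 → Bool) :
    bx (vert z s e) x = gg z s x 0 (e 0) * gg z s x 1 (e 1) * gg z s x 2 (e 2) := by
  have h1 : (∀ i, 0 < x i ∧ x i ≤ vert z s e i) ↔
      ((0 < x 0 ∧ x 0 ≤ z 0 + (if e 0 then s else 0)) ∧
        (0 < x 1 ∧ x 1 ≤ z 1 + (if e 1 then s else 0)) ∧
        (0 < x 2 ∧ x 2 ≤ z 2 + (if e 2 then s else 0))) := by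
    constructor
    · intro h
      exact ⟨h 0, h 1, h 2⟩
    · rintro ⟨h0, h1, h2⟩ i
      fin_cases i
      · exact h0
      · exact h1
      · exact h2
  unfold bx gg
  by_cases h : ∀ i, 0 < x i ∧ x i ≤ vert z s e i
  · rw [if_pos h]
    have h2 := h1.mp h
    rw [if_pos h2.1, if_pos h2.2.1, if_pos h2.2.2]
    norm_num
  · rw [if_neg h]
    rw [h1] at h
    by_cases a0 : 0 < x 0 ∧ x 0 ≤ z 0 + (if e 0 then s else 0)
    · by_cases a1 : 0 < x 1 ∧ x 1 ≤ z 1 + (if e 1 then s else 0)
      · have a2 : ¬ (0 < x 2 ∧ x 2 ≤ z 2 + (if e 2 then s else 0)) := fun a2 => h ⟨a0, a1, a2⟩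
        rw [if_neg a2, mul_zero]
      · rw [if_neg a1, mul_zero, zero_mul]
    · rw [if_neg a0, zero_mul, zero_mul]

theorem Fc_true_eq (z : P3) (s : ℝ) (x : P3) : Fc z s true x =
    gg z s x 0 true * gg z s x 1 false * gg z s x 2 false +
    gg z s x 0 false * gg z s x 1 true * gg z s x 2 false +
    gg z s x 0 false * gg z s x 1 false * gg z s x 2 true +
    gg z s x 0 true * gg z s x 1 true * gg z s x 2 true := by
  unfold Fc
  rw [Fin.sum_univ_four, bx_vert, bx_vert, bx_vert, bx_vert]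
  rfl

theorem Fc_false_eq (z : P3) (s : ℝ) (x : P3) : Fc z s false x =
    gg z s x 0 false * gg z s x 1 false * gg z s x 2 false +
    gg z s x 0 true * gg z s x 1 true * gg z s x 2 false +
    gg z s x 0 true * gg z s x 1 false * gg z s x 2 true +
    gg z s x 0 false * gg z s x 1 true * gg z s x 2 true := by
  unfold Fc
  rw [Fin.sum_univ_four, bx_vert, bx_vert, bx_vert, bx_vert]
  rfl

theorem gg_in (z : P3) (s : ℝ) (hz : ∀ i, 0 ≤ z i) (x : P3) (hx : x ∈ cube z s) (i : Fin 3) :
    gg z s x i true = 1 ∧ gg z s x i false = 0 := by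
  rw [mem_cube] at hx
  have h := hx i
  have h0 := hz i
  unfold gg
  constructor
  · rw [if_pos]
    refine ⟨by linarith, ?_⟩
    simpa using h.2
  · rw [if_neg]
    rintro ⟨_, h2⟩
    simp at h2
    linarith

theorem Fc_in_true (z : P3) (s : ℝ) (hz : ∀ i, 0 ≤ z i) (x : P3) (hx : x ∈ cube z s) :
    Fc z s true x = 1 := by
  rw [Fc_true_eq, (gg_in z s hz x hx 0).1, (gg_in z s hz x hx 0).2, (gg_in z s hz x hx 1).1,
    (gg_in z s hz x hx 1).2, (gg_in z s hz x hx 2).1, (gg_in z s hz x hx 2).2]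
  norm_num

theorem Fc_in_false (z : P3) (s : ℝ) (hz : ∀ i, 0 ≤ z i) (x : P3) (hx : x ∈ cube z s) :
    Fc z s false x = 0 := by
  rw [Fc_false_eq, (gg_in z s hz x hx 0).1, (gg_in z s hz x hx 0).2, (gg_in z s hz x hx 1).1,
    (gg_in z s hz x hx 1).2, (gg_in z s hz x hx 2).1, (gg_in z s hz x hx 2).2]
  norm_num

theorem Fc_out (z : P3) (s : ℝ) (hs : 0 ≤ s) (x : P3) (hx : x ∉ cube z s) :
    Fc z s true x = Fc z s false x := by
  rw [mem_cube] at hx
  push Not at hx
  obtain ⟨i, hi⟩ := hx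
  have hkey : gg z s x i true = gg z s x i false := by
    unfold gg
    by_cases h : z i < x i
    · have h2 := hi h
      rw [if_neg, if_neg]
      · rintro ⟨_, h3⟩
        simp at h3
        linarith
      · rintro ⟨_, h3⟩
        simp at h3
        linarith
    · push Not at h
      by_cases h0 : 0 < x i
      · rw [if_pos, if_pos]
        · exact ⟨h0, by simpa using h⟩
        · refine ⟨h0, ?_⟩
          simp
          linarith
      · rw [if_neg (fun h3 => h0 h3.1), if_neg (fun h3 => h0 h3.1)]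
  rw [Fc_true_eq, Fc_false_eq]
  have hi3 : i = 0 ∨ i = 1 ∨ i = 2 := by
    fin_cases i <;> simp
  rcases hi3 with rfl | rfl | rfl <;> rw [hkey] <;> ring

theorem vert_mass (z : P3) (s : ℝ) :
    ∑ r, ∏ i, vert z s (vx true r) i = ∑ r, ∏ i, vert z s (vx false r) i + s ^ 3 := by
  simp [Fin.sum_univ_four, Fin.prod_univ_three, vert, vx]
  ring

end Pool.Agent.KS6_98.SMU
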