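import Pool.Agent.KS6_98.SmuGeom

/-!
# Existence of the maximum likelihood estimator over scale mixtures of uniforms
-/

set_option autoImplicit false

open MeasureTheory Set
open scoped ENNReal

namespace Pool.Agent.KS6_98.SMU

variable {d n : ℕ}

/-- indices of the observations below `y` -/
noncomputable def below (X : Fin n → Fin d → ℝ) (y : Fin d → ℝ) : Finset (Fin n) := by
  classical
  exact Finset.univ.filter (fun i => ∀ j, X i j ≤ y j)

/-- componentwise maximum over `S` (`1` if `S` is empty) -/
noncomputable def top (X : Fin n → Fin d → ℝ) (S : Finset (Fin n)) : Fin d → ℝ := by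
  classical
  exact fun j => if h : S.Nonempty then S.sup' h (fun i => X i j) else 1

theorem top_pos (X : Fin n → Fin d → ℝ) (hX : ∀ i j, 0 < X i j) (S : Finset (Fin n)) (j : Fin d) :
    0 < top X S j := by
  unfold top
  split_ifs with h
  · obtain ⟨i, hi⟩ := h
    exact lt_of_lt_of_le (hX i j) (Finset.le_sup' (fun i => X i j) hi)
  · norm_num

theorem le_top (X : Fin n → Fin d → ℝ) (S : Finset (Fin n)) (i : Fin n) (hi : i ∈ S) (j : Fin d) :
    X i j ≤ top X S j := by
  unfold top
  rw [dif_pos ⟨i, hi⟩]
  exact Finset.le_sup' (fun i => X i j) hi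

theorem top_le (X : Fin n → Fin d → ℝ) (y : Fin d → ℝ) (h : (below X y).Nonempty) (j : Fin d) :
    top X (below X y) j ≤ y j := by
  unfold top
  rw [dif_pos h]
  apply Finset.sup'_le
  intro i hi
  unfold below at hi
  exact (Finset.mem_filter.mp hi).2 j

theorem ker_le_top (X : Fin n → Fin d → ℝ) (hX : ∀ i j, 0 < X i j) (y : Fin d → ℝ) (i : Fin n) :
    ker (X i) y ≤ ker (X i) (top X (below X y)) := by
  classical
  by_cases h : ∀ j, 0 < X i j ∧ X i j ≤ y j
  · have hi : i ∈ below X y := by
      unfold below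
      exact Finset.mem_filter.mpr ⟨Finset.mem_univ _, fun j => (h j).2⟩
    have h2 : ∀ j, 0 < X i j ∧ X i j ≤ top X (below X y) j :=
      fun j => ⟨hX i j, le_top X _ i hi j⟩
    unfold ker
    rw [if_pos h, if_pos h2]
    apply inv_anti₀
    · exact Finset.prod_pos (fun j _ => top_pos X hX _ j)
    · exact Finset.prod_le_prod (fun j _ => (top_pos X hX _ j).le)
        (fun j _ => top_le X y ⟨i, hi⟩ j)
  · have : ker (X i) y = 0 := by unfold ker; rw [if_neg h]
    rw [this]
    exact ker_nonneg _ _

theorem measurableSet_below (X : Fin n → Fin d → ℝ) (S : Finset (Fin n)) :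
    MeasurableSet {y : Fin d → ℝ | below X y = S} := by
  classical
  have h1 : {y : Fin d → ℝ | below X y = S} =
      ⋂ i, {y : Fin d → ℝ | (∀ j, X i j ≤ y j) ↔ i ∈ S} := by
    ext y
    simp only [Set.mem_ofPred_eq, Set.mem_iInter]
    unfold below
    constructor
    · intro h i
      rw [← h, Finset.mem_filter]
      simp
    · intro h
      ext i
      rw [Finset.mem_filter]
      simpa using h i
  rw [h1]
  apply MeasurableSet.iInter
  intro i
  have hm : MeasurableSet {y : Fin d → ℝ | ∀ j, X i j ≤ y j} := by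
    have : {y : Fin d → ℝ | ∀ j, X i j ≤ y j} = ⋂ j, {y : Fin d → ℝ | X i j ≤ y j} := by
      ext; simp
    rw [this]
    exact MeasurableSet.iInter (fun j => measurableSet_le measurable_const (measurable_pi_apply j))
  by_cases hi : i ∈ S
  · simpa [hi] using hm
  · have : {y : Fin d → ℝ | (∀ j, X i j ≤ y j) ↔ i ∈ S} = {y : Fin d → ℝ | ∀ j, X i j ≤ y j}ᶜ := by
      ext y
      simp [hi]
    rw [this]
    exact hm.compl

/-- the weights of a mixing law -/
noncomputable def wt (X : Fin n → Fin d → ℝ) (G : Measure (Fin d → ℝ)) (S : Finset (Fin n)) : ℝ :=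
  (G {y | below X y = S}).toReal

theorem smu_le (X : Fin n → Fin d → ℝ) (hX : ∀ i j, 0 < X i j) (G : Measure (Fin d → ℝ))
    [IsProbabilityMeasure G] (i : Fin n) :
    smu G (X i) ≤ ∑ S : Finset (Fin n), wt X G S * ker (X i) (top X S) := by
  classical
  have h1 : ∀ y : Fin d → ℝ, ker (X i) (top X (below X y)) =
      ∑ S : Finset (Fin n), ({y : Fin d → ℝ | below X y = S}).indicator
        (fun _ => ker (X i) (top X S)) y := by
    intro y
    rw [Finset.sum_eq_single (below X y)]
    · rw [Set.indicator_of_mem]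
      rfl
    · intro S _ hS
      rw [Set.indicator_of_notMem]
      intro h
      exact hS h.symm
    · intro h
      exact absurd (Finset.mem_univ _) h
  have hint : ∀ S : Finset (Fin n), Integrable (({y : Fin d → ℝ | below X y = S}).indicator
        (fun _ => ker (X i) (top X S))) G := by
    intro S
    exact (integrable_const _).indicator (measurableSet_below X S)
  unfold smu
  calc ∫ y, ker (X i) y ∂G ≤ ∫ y, ker (X i) (top X (below X y)) ∂G := by
        apply integral_mono_of_nonneg
        · exact Filter.Eventually.of_forall (fun y => ker_nonneg _ _)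
        · simp_rw [h1]
          exact integrable_finsetSum _ (fun S _ => hint S)
        · exact Filter.Eventually.of_forall (fun y => ker_le_top X hX y i)
    _ = ∑ S : Finset (Fin n), wt X G S * ker (X i) (top X S) := by
        simp_rw [h1]
        rw [integral_finsetSum _ (fun S _ => hint S)]
        apply Finset.sum_congr rfl
        intro S _
        rw [integral_indicator_const _ (measurableSet_below X S)]
        rfl

theorem sum_wt (X : Fin n → Fin d → ℝ) (G : Measure (Fin d → ℝ)) [IsProbabilityMeasure G] :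
    ∑ S : Finset (Fin n), wt X G S = 1 := by
  classical
  have h1 : ∑ S : Finset (Fin n), wt X G S = ∑ S : Finset (Fin n),
      ∫ y, ({y : Fin d → ℝ | below X y = S}).indicator (fun _ => (1 : ℝ)) y ∂G := by
    apply Finset.sum_congr rfl
    intro S _
    rw [integral_indicator_const _ (measurableSet_below X S)]
    simp [wt, Measure.real]
  rw [h1, ← integral_finsetSum _ (fun S _ =>
    (integrable_const _).indicator (measurableSet_below X S))]
  have h2 : ∀ y : Fin d → ℝ, ∑ S : Finset (Fin n),
      ({y : Fin d → ℝ | below X y = S}).indicator (fun _ => (1 : ℝ)) y = 1 := by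
    intro y
    rw [Finset.sum_eq_single (below X y)]
    · rw [Set.indicator_of_mem]
      rfl
    · intro S _ hS
      rw [Set.indicator_of_notMem]
      intro h
      exact hS h.symm
    · intro h
      exact absurd (Finset.mem_univ _) h
  simp_rw [h2]
  simp

/-- the discrete mixing law with weights `w` -/
noncomputable def Gw (X : Fin n → Fin d → ℝ) (w : Finset (Fin n) → ℝ) : Measure (Fin d → ℝ) :=
  ∑ S : Finset (Fin n), ENNReal.ofReal (w S) • Measure.dirac (top X S)

theorem Gw_prob (X : Fin n → Fin d → ℝ) (w : Finset (Fin n) → ℝ)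
    (hw : w ∈ stdSimplex ℝ (Finset (Fin n))) : IsProbabilityMeasure (Gw X w) := by
  constructor
  unfold Gw
  simp only [Measure.coe_finsetSum, Measure.coe_smul, Finset.sum_apply, Pi.smul_apply,
    measure_univ, smul_eq_mul, mul_one]
  rw [← ENNReal.ofReal_sum_of_nonneg (fun S _ => hw.1 S), hw.2]
  simp

theorem Gw_pos (X : Fin n → Fin d → ℝ) (hX : ∀ i j, 0 < X i j) (w : Finset (Fin n) → ℝ) :
    Gw X w {y | ∀ i, 0 < y i}ᶜ = 0 := by
  classical
  have hms : MeasurableSet {y : Fin d → ℝ | ∀ i, 0 < y i}ᶜ := by
    apply MeasurableSet.compl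
    have : {y : Fin d → ℝ | ∀ i, 0 < y i} = ⋂ i, {y : Fin d → ℝ | 0 < y i} := by ext; simp
    rw [this]
    exact MeasurableSet.iInter (fun i => measurableSet_lt measurable_const (measurable_pi_apply i))
  unfold Gw
  simp only [Measure.coe_finsetSum, Measure.coe_smul, Finset.sum_apply, Pi.smul_apply,
    smul_eq_mul]
  apply Finset.sum_eq_zero
  intro S _
  rw [Measure.dirac_apply' _ hms, Set.indicator_of_notMem, mul_zero]
  simp only [Set.mem_compl_iff, Set.mem_ofPred_eq, not_not]
  exact top_pos X hX S

theorem smu_Gw (X : Fin n → Fin d → ℝ) (w : Finset (Fin n) → ℝ)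
    (hw : w ∈ stdSimplex ℝ (Finset (Fin n))) (x : Fin d → ℝ) :
    smu (Gw X w) x = ∑ S : Finset (Fin n), w S * ker x (top X S) := by
  have := Gw_prob X w hw
  have h1 : ENNReal.ofReal (smu (Gw X w) x) =
      ENNReal.ofReal (∑ S : Finset (Fin n), w S * ker x (top X S)) := by
    rw [ofReal_smu]
    unfold Gw
    rw [lintegral_finsetSum_measure, ENNReal.ofReal_sum_of_nonneg
      (fun S _ => mul_nonneg (hw.1 S) (ker_nonneg _ _))]
    apply Finset.sum_congr rfl
    intro S _
    rw [lintegral_smul_measure, lintegral_dirac, ENNReal.ofReal_mul (hw.1 S)]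
    rfl
  exact (ENNReal.ofReal_eq_ofReal_iff (smu_nonneg _ _)
    (Finset.sum_nonneg (fun S _ => mul_nonneg (hw.1 S) (ker_nonneg _ _)))).mp h1

theorem smu_zero_of (G : Measure (Fin d → ℝ)) (x : Fin d → ℝ) (j : Fin d) (hx : x j ≤ 0) :
    smu G x = 0 := by
  unfold smu
  have : ∀ y, ker x y = 0 := by
    intro y
    unfold ker
    rw [if_neg]
    intro h
    have := (h j).1
    linarith
  simp_rw [this]
  simp

/-- **existence of the maximum likelihood estimator** -/
theorem exists_mle (X : Fin n → Fin d → ℝ) :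
    ∃ G : Measure (Fin d → ℝ), IsProbabilityMeasure G ∧ G {y | ∀ i, 0 < y i}ᶜ = 0 ∧
      ∀ G' : Measure (Fin d → ℝ), IsProbabilityMeasure G' → G' {y | ∀ i, 0 < y i}ᶜ = 0 →
        ∏ i, smu G' (X i) ≤ ∏ i, smu G (X i) := by
  classical
  by_cases hX : ∀ i j, 0 < X i j
  · have hc : Continuous (fun w : Finset (Fin n) → ℝ =>
        ∏ i, ∑ S : Finset (Fin n), w S * ker (X i) (top X S)) := by
      apply continuous_finsetProd
      intro i _
      apply continuous_finsetSum
      intro S _
      exact (continuous_apply S).mul continuous_const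
    have hne : (stdSimplex ℝ (Finset (Fin n))).Nonempty :=
      ⟨_, single_mem_stdSimplex ℝ (∅ : Finset (Fin n))⟩
    obtain ⟨w, hw, hmax⟩ := (isCompact_stdSimplex ℝ (Finset (Fin n))).exists_isMaxOn hne
      hc.continuousOn
    refine ⟨Gw X w, Gw_prob X w hw, Gw_pos X hX w, ?_⟩
    intro G' hG' _
    have hw' : wt X G' ∈ stdSimplex ℝ (Finset (Fin n)) :=
      ⟨fun S => ENNReal.toReal_nonneg, sum_wt X G'⟩
    calc ∏ i, smu G' (X i) ≤ ∏ i, ∑ S : Finset (Fin n), wt X G' S * ker (X i) (top X S) :=
          Finset.prod_le_prod (fun i _ => smu_nonneg _ _) (fun i _ => smu_le X hX G' i)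
      _ ≤ ∏ i, ∑ S : Finset (Fin n), w S * ker (X i) (top X S) := hmax hw'
      _ = ∏ i, smu (Gw X w) (X i) := by
          apply Finset.prod_congr rfl
          intro i _
          rw [smu_Gw X w hw]
  · push Not at hX
    obtain ⟨i, j, hij⟩ := hX
    refine ⟨Measure.dirac (fun _ => 1), inferInstance, ?_, ?_⟩
    · have hms : MeasurableSet {y : Fin d → ℝ | ∀ i, 0 < y i}ᶜ := by
        apply MeasurableSet.compl
        have : {y : Fin d → ℝ | ∀ i, 0 < y i} = ⋂ i, {y : Fin d → ℝ | 0 < y i} := by ext; simp
        rw [this]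
        exact MeasurableSet.iInter
          (fun i => measurableSet_lt measurable_const (measurable_pi_apply i))
      rw [Measure.dirac_apply' _ hms, Set.indicator_of_notMem]
      simp
    · intro G' _ _
      rw [Finset.prod_eq_zero (Finset.mem_univ i) (smu_zero_of G' (X i) j hij)]
      exact Finset.prod_nonneg (fun i _ => smu_nonneg _ _)

end Pool.Agent.KS6_98.SMU
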