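import Pool.Agent.KS6_98.SmuScales
import Pool.Agent.KS6_98.Assouad

/-!
# The multi-scale mixing measure and the bad density
-/

set_option autoImplicit false
set_option linter.style.haveILetI false

open MeasureTheory Set
open scoped ENNReal

namespace Pool.Agent.KS6_98.SMU

abbrev Th (m : ℕ → ℕ) := ∀ k, Fin (m k) × Fin (m k) → Bool

noncomputable def v0 : P3 := ![1 / 2, 1, 1]

noncomputable def rr (m : ℕ → ℕ) : ℝ := 1 - ∑' k, WW (m k) k (fun _ => true)

noncomputable def GS (m k : ℕ) (b : Fin m × Fin m → Bool) : Measure P3 :=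
  ∑ p, ∑ t, ∑ r, ENNReal.ofReal (cc m k * ∏ i, at' m k b p t r i) • Measure.dirac (at' m k b p t r)

noncomputable def GG (m : ℕ → ℕ) (θ : Th m) : Measure P3 :=
  ENNReal.ofReal (rr m) • Measure.dirac v0 + Measure.sum (fun k => GS (m k) k (θ k))

theorem lintegral_GS (m k : ℕ) (b : Fin m × Fin m → Bool) (g : P3 → ℝ≥0∞) :
    ∫⁻ y, g y ∂(GS m k b) =
      ∑ p, ∑ t, ∑ r, ENNReal.ofReal (cc m k * ∏ i, at' m k b p t r i) * g (at' m k b p t r) := by
  unfold GS
  rw [lintegral_finsetSum_measure]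
  apply Finset.sum_congr rfl
  intro p _
  rw [lintegral_finsetSum_measure]
  apply Finset.sum_congr rfl
  intro t _
  rw [lintegral_finsetSum_measure]
  apply Finset.sum_congr rfl
  intro r _
  rw [lintegral_smul_measure, lintegral_dirac]
  rfl

theorem lintegral_GG (m : ℕ → ℕ) (θ : Th m) (g : P3 → ℝ≥0∞) :
    ∫⁻ y, g y ∂(GG m θ) = ENNReal.ofReal (rr m) * g v0 +
      ∑' k, ∑ p, ∑ t, ∑ r, ENNReal.ofReal (cc (m k) k * ∏ i, at' (m k) k (θ k) p t r i) *
        g (at' (m k) k (θ k) p t r) := by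
  unfold GG
  rw [lintegral_add_measure, lintegral_smul_measure, lintegral_dirac, lintegral_sum_measure]
  simp_rw [lintegral_GS]
  rfl

theorem summable_WW (m : ℕ → ℕ) (θ : Th m) : Summable (fun k => WW (m k) k (θ k)) := by
  apply Summable.of_nonneg_of_le (fun k => WW_nonneg _ _ _) (fun k => WW_le _ _ _)
  simp_rw [pow_add]
  exact (summable_geometric_of_lt_one (by norm_num) (by norm_num)).mul_right _

theorem tsum_half : ∑' k : ℕ, (1 / 2 : ℝ) ^ (k + 2) = 1 / 2 := by
  simp_rw [pow_add]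
  rw [tsum_mul_right, tsum_geometric_of_lt_one (by norm_num) (by norm_num)]
  norm_num

theorem summable_half : Summable (fun k : ℕ => (1 / 2 : ℝ) ^ (k + 2)) := by
  simp_rw [pow_add]
  exact (summable_geometric_of_lt_one (by norm_num) (by norm_num)).mul_right _

theorem tsum_WW_le (m : ℕ → ℕ) (θ : Th m) : ∑' k, WW (m k) k (θ k) ≤ 1 / 2 := by
  rw [← tsum_half]
  exact (summable_WW m θ).tsum_le_tsum (fun k => WW_le _ _ _) summable_half

theorem rr_nonneg (m : ℕ → ℕ) : 0 ≤ rr m := by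
  unfold rr
  have := tsum_WW_le m (fun _ _ => true)
  linarith

theorem rr_le_one (m : ℕ → ℕ) : rr m ≤ 1 := by
  unfold rr
  have : 0 ≤ ∑' k, WW (m k) k (fun _ => true) := tsum_nonneg (fun k => WW_nonneg _ _ _)
  linarith

theorem ofReal_WW (m k : ℕ) (b : Fin m × Fin m → Bool) :
    ∑ p, ∑ t, ∑ r, ENNReal.ofReal (cc m k * ∏ i, at' m k b p t r i) = ENNReal.ofReal (WW m k b) := by
  have h0 : ∀ p t r, 0 ≤ cc m k * ∏ i, at' m k b p t r i := fun p t r =>
    mul_nonneg (cc_nonneg m k) (Finset.prod_nonneg (fun i _ => (at_pos m k b p t r i).le))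
  unfold WW
  rw [ENNReal.ofReal_sum_of_nonneg (fun p _ => Finset.sum_nonneg (fun t _ =>
    Finset.sum_nonneg (fun r _ => h0 p t r)))]
  apply Finset.sum_congr rfl
  intro p _
  rw [ENNReal.ofReal_sum_of_nonneg (fun t _ => Finset.sum_nonneg (fun r _ => h0 p t r))]
  apply Finset.sum_congr rfl
  intro t _
  rw [ENNReal.ofReal_sum_of_nonneg (fun r _ => h0 p t r)]

instance isProb_GG (m : ℕ → ℕ) (θ : Th m) : IsProbabilityMeasure (GG m θ) := by
  constructor
  have h1 := lintegral_GG m θ (fun _ => 1)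
  rw [lintegral_one] at h1
  rw [h1]
  simp_rw [mul_one, ofReal_WW]
  have h2 : ∀ k, WW (m k) k (θ k) = WW (m k) k (fun _ => true) := fun k => WW_indep _ _ _ _
  simp_rw [h2]
  rw [← ENNReal.ofReal_tsum_of_nonneg (fun k => WW_nonneg _ _ _) (summable_WW m (fun _ _ => true)),
    ← ENNReal.ofReal_add (rr_nonneg m) (tsum_nonneg (fun k => WW_nonneg _ _ _))]
  unfold rr
  simp

theorem v0_pos (i : Fin 3) : 0 < v0 i := by
  have hi3 : i = 0 ∨ i = 1 ∨ i = 2 := by fin_cases i <;> simp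
  rcases hi3 with rfl | rfl | rfl <;> simp [v0]

theorem v0_le (i : Fin 3) : v0 i ≤ 1 := by
  have hi3 : i = 0 ∨ i = 1 ∨ i = 2 := by fin_cases i <;> simp
  rcases hi3 with rfl | rfl | rfl
  · norm_num [v0]
  · norm_num [v0]
  · simp [v0]

theorem GG_pos (m : ℕ → ℕ) (θ : Th m) : GG m θ {y | ∀ i, 0 < y i}ᶜ = 0 := by
  classical
  have hms : MeasurableSet {y : P3 | ∀ i, 0 < y i}ᶜ := by
    apply MeasurableSet.compl
    have : {y : P3 | ∀ i, 0 < y i} = ⋂ i, {y : P3 | 0 < y i} := by ext; simp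
    rw [this]
    exact MeasurableSet.iInter (fun i => measurableSet_lt measurable_const (measurable_pi_apply i))
  rw [← lintegral_indicator_one hms, lintegral_GG]
  have h1 : ({y : P3 | ∀ i, 0 < y i}ᶜ).indicator (1 : P3 → ℝ≥0∞) v0 = 0 := by
    apply Set.indicator_of_notMem
    simp only [Set.mem_compl_iff, Set.mem_ofPred_eq, not_not]
    exact v0_pos
  have h2 : ∀ k p t r, ({y : P3 | ∀ i, 0 < y i}ᶜ).indicator (1 : P3 → ℝ≥0∞)
      (at' (m k) k (θ k) p t r) = 0 := by
    intro k p t r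
    apply Set.indicator_of_notMem
    simp only [Set.mem_compl_iff, Set.mem_ofPred_eq, not_not]
    exact at_pos _ _ _ _ _ _
  simp [h1, h2]

/-- the density at the parameter `θ` -/
noncomputable def ff (m : ℕ → ℕ) (θ : Th m) : P3 → ℝ := smu (GG m θ)

theorem ff_nonneg (m : ℕ → ℕ) (θ : Th m) (x : P3) : 0 ≤ ff m θ x := smu_nonneg _ _

theorem measurable_ff (m : ℕ → ℕ) (θ : Th m) : Measurable (ff m θ) := measurable_smu _

theorem lintegral_ff (m : ℕ → ℕ) (θ : Th m) : ∫⁻ x, ENNReal.ofReal (ff m θ x) = 1 :=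
  lintegral_smu (GG m θ) (GG_pos m θ)

theorem ofReal_ff (m : ℕ → ℕ) (θ : Th m) (x : P3) :
    ENNReal.ofReal (ff m θ x) = ENNReal.ofReal (rr m * ker x v0) +
      ∑' k, ENNReal.ofReal (cc (m k) k * Phi (m k) k (θ k) x) := by
  unfold ff
  rw [ofReal_smu, lintegral_GG, ← ENNReal.ofReal_mul (rr_nonneg m)]
  congr 1
  apply tsum_congr
  intro k
  have h1 : ∀ p t r, ENNReal.ofReal (cc (m k) k * ∏ i, at' (m k) k (θ k) p t r i) *
      ENNReal.ofReal (ker x (at' (m k) k (θ k) p t r)) =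
      ENNReal.ofReal (cc (m k) k * bx (at' (m k) k (θ k) p t r) x) := by
    intro p t r
    rw [← ENNReal.ofReal_mul (mul_nonneg (cc_nonneg _ _)
      (Finset.prod_nonneg (fun i _ => (at_pos _ _ _ p t r i).le)))]
    rw [mul_assoc, ker_mul x _ (at_pos _ _ _ p t r)]
  simp_rw [h1]
  have h0 : ∀ p t r, 0 ≤ cc (m k) k * bx (at' (m k) k (θ k) p t r) x := by
    intro p t r
    apply mul_nonneg (cc_nonneg _ _)
    unfold bx
    split_ifs <;> norm_num
  have hPhi : cc (m k) k * Phi (m k) k (θ k) x =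
      ∑ p, ∑ t, ∑ r, cc (m k) k * bx (at' (m k) k (θ k) p t r) x := by
    unfold Phi Fc at'
    simp_rw [Finset.mul_sum]
  rw [hPhi, ENNReal.ofReal_sum_of_nonneg (fun p _ => Finset.sum_nonneg (fun t _ =>
    Finset.sum_nonneg (fun r _ => h0 p t r)))]
  apply Finset.sum_congr rfl
  intro p _
  rw [ENNReal.ofReal_sum_of_nonneg (fun t _ => Finset.sum_nonneg (fun r _ => h0 p t r))]
  apply Finset.sum_congr rfl
  intro t _
  rw [ENNReal.ofReal_sum_of_nonneg (fun r _ => h0 p t r)]

theorem ker_v0_on (m k : ℕ) (p : Fin m × Fin m) (t : Bool) (x : P3) (hx : x ∈ CC m k p t) :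
    ker x v0 = 0 := by
  unfold ker
  rw [if_neg]
  intro h
  have h1 := (h 0).2
  have h2 := ((mem_cube _ _ _).mp hx 0).1
  have h3 : v0 0 = 1 / 2 := by simp [v0]
  have h4 : (1 / 2 : ℝ) ≤ corner m k p t 0 := by
    simp only [corner, Matrix.cons_val_zero]
    have := AA_ge k
    have := sd_pos m k
    have : 0 ≤ sd m k * (gi m p t : ℝ) := by positivity
    linarith
  linarith

theorem ff_on (m : ℕ → ℕ) (θ : Th m) (k : ℕ) (p : Fin (m k) × Fin (m k)) (t : Bool) (x : P3)
    (hx : x ∈ CC (m k) k p t) : ff m θ x = if θ k p = t then cc (m k) k else 0 := by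
  have h1 := ofReal_ff m θ x
  rw [ker_v0_on (m k) k p t x hx, mul_zero, ENNReal.ofReal_zero, zero_add,
    tsum_eq_single k, Phi_on (m k) k (θ k) p t x hx] at h1
  · have h2 : cc (m k) k * (if θ k p = t then (1 : ℝ) else 0) = if θ k p = t then cc (m k) k else 0 := by
      split_ifs <;> simp
    rw [h2] at h1
    have h3 : 0 ≤ if θ k p = t then cc (m k) k else 0 := by
      split_ifs
      · exact cc_nonneg _ _
      · exact le_rfl
    exact (ENNReal.ofReal_eq_ofReal_iff (ff_nonneg m θ x) h3).mp h1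
  · intro j hj
    rw [Phi_other (m k) (m j) j k hj (θ j) p t x hx, mul_zero, ENNReal.ofReal_zero]

theorem ff_congr (m : ℕ → ℕ) (θ θ' : Th m) (x : P3)
    (h : ∀ k, θ k = θ' k ∨ ∀ p t, x ∉ CC (m k) k p t) : ff m θ x = ff m θ' x := by
  have h1 : ENNReal.ofReal (ff m θ x) = ENNReal.ofReal (ff m θ' x) := by
    rw [ofReal_ff, ofReal_ff]
    congr 1
    apply tsum_congr
    intro k
    rcases h k with h | h
    · rw [h]
    · rw [Phi_off (m k) k (θ k) (θ' k) x h]
  exact (ENNReal.ofReal_eq_ofReal_iff (ff_nonneg m θ x) (ff_nonneg m θ' x)).mp h1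

theorem cc_Phi_le (m k : ℕ) (b : Fin m × Fin m → Bool) (x : P3) :
    cc m k * Phi m k b x ≤ (1 / 2) ^ (k + 2) := by
  calc cc m k * Phi m k b x ≤ cc m k * (8 * m ^ 2) := by
        gcongr
        · exact cc_nonneg m k
        · exact Phi_le m k b x
    _ ≤ (1 / 2) ^ (k + 2) := by
        unfold cc
        rcases Nat.eq_zero_or_pos m with rfl | hm
        · simp
        · have hm' : (0 : ℝ) < m := by exact_mod_cast hm
          apply le_of_eq
          field_simp
          ring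

theorem ff_bdd (m : ℕ → ℕ) (θ : Th m) (x : P3) : ff m θ x ≤ 3 := by
  have h1 := ofReal_ff m θ x
  have h2 : ENNReal.ofReal (rr m * ker x v0) ≤ ENNReal.ofReal 2 := by
    apply ENNReal.ofReal_le_ofReal
    have hk : ker x v0 ≤ 2 := by
      unfold ker
      split_ifs
      · simp [v0, Fin.prod_univ_three]
      · norm_num
    have := rr_le_one m
    have := rr_nonneg m
    have := ker_nonneg x v0
    nlinarith
  have h3 : ∑' k, ENNReal.ofReal (cc (m k) k * Phi (m k) k (θ k) x) ≤ ENNReal.ofReal (1 / 2) := by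
    rw [← tsum_half, ENNReal.ofReal_tsum_of_nonneg (fun k => by positivity) summable_half]
    exact ENNReal.tsum_le_tsum (fun k => ENNReal.ofReal_le_ofReal (cc_Phi_le _ _ _ _))
  have h4 : ENNReal.ofReal (ff m θ x) ≤ ENNReal.ofReal 3 := by
    rw [h1]
    calc _ ≤ ENNReal.ofReal 2 + ENNReal.ofReal (1 / 2) := add_le_add h2 h3
      _ = ENNReal.ofReal (2 + 1 / 2) := by rw [← ENNReal.ofReal_add (by norm_num) (by norm_num)]
      _ ≤ ENNReal.ofReal 3 := ENNReal.ofReal_le_ofReal (by norm_num)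
  exact (ENNReal.ofReal_le_ofReal_iff (by norm_num)).mp h4

theorem ff_supp (m : ℕ → ℕ) (θ : Th m) (x : P3) (i : Fin 3) (hi : 1 < x i) : ff m θ x = 0 := by
  have h1 := ofReal_ff m θ x
  have h2 : ker x v0 = 0 := by
    unfold ker
    rw [if_neg]
    intro h
    have := (h i).2
    have := v0_le i
    linarith
  have h3 : ∀ k, Phi (m k) k (θ k) x = 0 := by
    intro k
    unfold Phi
    apply Finset.sum_eq_zero
    intro p _
    apply Finset.sum_eq_zero
    intro t _
    exact Fc_zero _ _ (sd_pos _ _).le _ x i (lt_of_le_of_lt (corner_top_le_one _ _ _ _ _) hi)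
  simp_rw [h3] at h1
  rw [h2] at h1
  simp at h1
  exact le_antisymm h1 (ff_nonneg m θ x)

/-- sample sizes -/
def nn (m k : ℕ) : ℕ := 2 ^ (4 * k + 7) * m ^ 2 * (3 * m + 1) ^ 3

theorem nn_mul (m k : ℕ) (hm : 0 < m) : (nn m k : ℝ) * (cc m k * sd m k ^ 3) = 1 / 16 := by
  have hm' : (0 : ℝ) < m := by exact_mod_cast hm
  unfold nn cc sd ll
  push_cast
  have e1 : (2 : ℝ) ^ (4 * k + 7) = (2 ^ k) ^ 4 * 128 := by
    rw [pow_add, pow_mul, pow_right_comm]; norm_num
  have e2 : (1 / 2 : ℝ) ^ (k + 5) = 1 / (2 ^ k * 32) := by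
    rw [pow_add, div_pow, one_pow]; field_simp; norm_num
  have e3 : (1 / 2 : ℝ) ^ (k + 2) = 1 / (2 ^ k * 4) := by
    rw [pow_add, div_pow, one_pow]; field_simp; norm_num
  rw [e1, e2, e3]
  have h2 : (0 : ℝ) < 2 ^ k := by positivity
  field_simp
  norm_num

/-- the union of the cubes of scale `k` -/
def UU (m k : ℕ) : Set P3 := ⋃ p, ⋃ t, CC m k p t

theorem measurableSet_CC (m k : ℕ) (p : Fin m × Fin m) (t : Bool) : MeasurableSet (CC m k p t) :=
  measurableSet_cube _ _

theorem measurableSet_UU (m k : ℕ) : MeasurableSet (UU m k) :=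
  MeasurableSet.iUnion fun _ => MeasurableSet.iUnion fun _ => measurableSet_CC _ _ _ _

/-- the law of one observation -/
noncomputable def mu (m : ℕ → ℕ) (θ : Th m) : Measure P3 :=
  volume.withDensity (fun z => ENNReal.ofReal (ff m θ z))

instance isProb_mu (m : ℕ → ℕ) (θ : Th m) : IsProbabilityMeasure (mu m θ) := by
  constructor
  unfold mu
  rw [withDensity_apply _ MeasurableSet.univ, setLIntegral_univ, lintegral_ff]

theorem mu_UU_le (m : ℕ → ℕ) (θ : Th m) (k : ℕ) :
    mu m θ (UU (m k) k) ≤ ENNReal.ofReal (2 * (m k) ^ 2 * (cc (m k) k * sd (m k) k ^ 3)) := by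
  have h1 : ∀ p t, mu m θ (CC (m k) k p t) ≤ ENNReal.ofReal (cc (m k) k * sd (m k) k ^ 3) := by
    intro p t
    unfold mu
    rw [withDensity_apply _ (measurableSet_CC _ _ _ _)]
    calc ∫⁻ z in CC (m k) k p t, ENNReal.ofReal (ff m θ z)
        ≤ ∫⁻ _ in CC (m k) k p t, ENNReal.ofReal (cc (m k) k) := by
          apply setLIntegral_mono measurable_const
          intro z hz
          apply ENNReal.ofReal_le_ofReal
          rw [ff_on m θ k p t z hz]
          split_ifs
          · exact le_rfl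
          · exact cc_nonneg _ _
      _ = ENNReal.ofReal (cc (m k) k * sd (m k) k ^ 3) := by
          rw [setLIntegral_const, CC, volume_cube _ _ (sd_pos _ _).le,
            ENNReal.ofReal_mul (cc_nonneg _ _)]
  unfold UU
  calc mu m θ (⋃ p, ⋃ t, CC (m k) k p t) ≤ ∑ p, ∑ t, mu m θ (CC (m k) k p t) := by
        refine (measure_iUnion_fintype_le _ _).trans ?_
        exact Finset.sum_le_sum (fun p _ => measure_iUnion_fintype_le _ _)
    _ ≤ ∑ _p : Fin (m k) × Fin (m k), ∑ _t : Bool, ENNReal.ofReal (cc (m k) k * sd (m k) k ^ 3) :=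
        Finset.sum_le_sum (fun p _ => Finset.sum_le_sum (fun t _ => h1 p t))
    _ = ENNReal.ofReal (2 * (m k) ^ 2 * (cc (m k) k * sd (m k) k ^ 3)) := by
        rw [Finset.sum_const, Finset.sum_const, Finset.card_univ, Finset.card_univ,
          Fintype.card_prod, Fintype.card_fin, Fintype.card_bool, nsmul_eq_mul, nsmul_eq_mul,
          ← ENNReal.ofReal_natCast, ← ENNReal.ofReal_natCast, ← ENNReal.ofReal_mul (by positivity),
          ← ENNReal.ofReal_mul (by positivity)]
        congr 1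
        push_cast
        ring

end Pool.Agent.KS6_98.SMU
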