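import Pool.Agent.KS6_98.SmuGeom

/-!
# Multi-scale mixtures
-/

set_option autoImplicit false

open MeasureTheory Set
open scoped ENNReal

namespace Pool.Agent.KS6_98.SMU

noncomputable def AA (k : ℕ) : ℝ := 1 - (1 / 2) ^ (k + 1)
noncomputable def BB (k : ℕ) : ℝ := (1 / 2) ^ (k + 1)
noncomputable def ll (k : ℕ) : ℝ := (1 / 2) ^ (k + 2)
noncomputable def sd (m k : ℕ) : ℝ := ll k / (3 * m + 1)
def gi (m : ℕ) (p : Fin m × Fin m) (t : Bool) : ℕ := (p.1 : ℕ) + (if t then 0 else m)
def gj (m : ℕ) (p : Fin m × Fin m) : ℕ := (p.2 : ℕ)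

noncomputable def corner (m k : ℕ) (p : Fin m × Fin m) (t : Bool) : P3 :=
  ![AA k + sd m k * gi m p t, BB k + sd m k * gj m p, 1 / 2 + sd m k * (3 * m - gi m p t - gj m p)]

theorem ll_pos (k : ℕ) : 0 < ll k := by unfold ll; positivity

theorem ll_le (k : ℕ) : ll k ≤ 1 / 4 := by
  unfold ll
  calc (1 / 2 : ℝ) ^ (k + 2) = (1 / 2) ^ k * (1 / 4) := by rw [pow_add]; norm_num
    _ ≤ 1 * (1 / 4) := by
        gcongr
        exact pow_le_one₀ (by norm_num) (by norm_num)
    _ = 1 / 4 := by norm_num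

theorem sd_pos (m k : ℕ) : 0 < sd m k := by
  unfold sd
  have := ll_pos k
  positivity

theorem BB_pos (k : ℕ) : 0 < BB k := by unfold BB; positivity

theorem AA_ge (k : ℕ) : 1 / 2 ≤ AA k := by
  unfold AA
  have : (1 / 2 : ℝ) ^ (k + 1) ≤ 1 / 2 := by
    rw [pow_succ]
    have : (1 / 2 : ℝ) ^ k ≤ 1 := pow_le_one₀ (by norm_num) (by norm_num)
    linarith
  linarith

theorem sd_mul (m k : ℕ) : sd m k * (3 * m + 1) = ll k := by
  unfold sd
  field_simp

theorem gi_lt (m : ℕ) (p : Fin m × Fin m) (t : Bool) : gi m p t + 1 ≤ 2 * m := by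
  unfold gi
  have := p.1.2
  split_ifs <;> omega

theorem gj_lt (m : ℕ) (p : Fin m × Fin m) : gj m p + 1 ≤ m := by
  unfold gj
  have := p.2.2
  omega

theorem corner_pos (m k : ℕ) (p : Fin m × Fin m) (t : Bool) (i : Fin 3) : 0 < corner m k p t i := by
  have h1 := sd_pos m k
  have h2 := AA_ge k
  have h3 := BB_pos k
  have h4 : ((gi m p t + 1 : ℕ) : ℝ) ≤ ((2 * m : ℕ) : ℝ) := by exact_mod_cast gi_lt m p t
  have h5 : ((gj m p + 1 : ℕ) : ℝ) ≤ (m : ℝ) := by exact_mod_cast gj_lt m p
  push_cast at h4 h5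
  have hi3 : i = 0 ∨ i = 1 ∨ i = 2 := by fin_cases i <;> simp
  rcases hi3 with rfl | rfl | rfl
  · simp [corner]
    positivity
  · simp [corner]
    positivity
  · simp [corner]
    have : 0 ≤ sd m k * (3 * m - gi m p t - gj m p) := by
      apply mul_nonneg h1.le
      linarith
    linarith

theorem corner_top0 (m k : ℕ) (p : Fin m × Fin m) (t : Bool) :
    corner m k p t 0 + sd m k ≤ AA k + ll k := by
  have h1 := sd_pos m k
  have h4 : ((gi m p t + 1 : ℕ) : ℝ) ≤ ((2 * m : ℕ) : ℝ) := by exact_mod_cast gi_lt m p t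
  push_cast at h4
  have h6 := sd_mul m k
  have hm : (0 : ℝ) ≤ m := Nat.cast_nonneg m
  simp [corner]
  nlinarith

theorem corner_top1 (m k : ℕ) (p : Fin m × Fin m) (t : Bool) :
    corner m k p t 1 + sd m k ≤ BB k + ll k := by
  have h1 := sd_pos m k
  have h5 : ((gj m p + 1 : ℕ) : ℝ) ≤ (m : ℝ) := by exact_mod_cast gj_lt m p
  push_cast at h5
  have h6 := sd_mul m k
  have hm : (0 : ℝ) ≤ m := Nat.cast_nonneg m
  simp [corner]
  nlinarith

theorem corner_top2 (m k : ℕ) (p : Fin m × Fin m) (t : Bool) :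
    corner m k p t 2 + sd m k ≤ 1 / 2 + ll k := by
  have h1 := sd_pos m k
  have h6 := sd_mul m k
  have hi : (0 : ℝ) ≤ gi m p t := Nat.cast_nonneg _
  have hj : (0 : ℝ) ≤ gj m p := Nat.cast_nonneg _
  simp [corner]
  nlinarith

theorem corner_top_le_one (m k : ℕ) (p : Fin m × Fin m) (t : Bool) (i : Fin 3) :
    corner m k p t i + sd m k ≤ 1 := by
  have hi3 : i = 0 ∨ i = 1 ∨ i = 2 := by fin_cases i <;> simp
  have hl := ll_pos k
  have hl4 := ll_le k
  rcases hi3 with rfl | rfl | rfl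
  · refine (corner_top0 m k p t).trans ?_
    unfold AA ll
    have : (1 / 2 : ℝ) ^ (k + 2) = (1 / 2) ^ (k + 1) * (1 / 2) := by ring
    have h2 : (0 : ℝ) < (1 / 2) ^ (k + 1) := by positivity
    linarith
  · refine (corner_top1 m k p t).trans ?_
    have : BB k ≤ 1 / 2 := by
      have := AA_ge k
      unfold AA at this
      unfold BB
      linarith
    linarith
  · refine (corner_top2 m k p t).trans ?_
    linarith

theorem sep_same (m k : ℕ) (p p' : Fin m × Fin m) (t t' : Bool) (h : (p, t) ≠ (p', t'))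
    (x : P3) (hx : x ∈ cube (corner m k p t) (sd m k)) :
    ∃ i, corner m k p' t' i + sd m k < x i := by
  rw [mem_cube] at hx
  have h1 := sd_pos m k
  by_cases c0 : gi m p' t' < gi m p t
  · refine ⟨0, lt_of_le_of_lt ?_ (hx 0).1⟩
    simp [corner]
    have : ((gi m p' t' + 1 : ℕ) : ℝ) ≤ gi m p t := by exact_mod_cast c0
    push_cast at this
    nlinarith
  · by_cases c1 : gj m p' < gj m p
    · refine ⟨1, lt_of_le_of_lt ?_ (hx 1).1⟩
      simp [corner]
      have : ((gj m p' + 1 : ℕ) : ℝ) ≤ gj m p := by exact_mod_cast c1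
      push_cast at this
      nlinarith
    · refine ⟨2, lt_of_le_of_lt ?_ (hx 2).1⟩
      have hne : gi m p t + gj m p + 1 ≤ gi m p' t' + gj m p' := by
        by_contra hcon
        have e1 : gi m p t = gi m p' t' := by omega
        have e2 : gj m p = gj m p' := by omega
        apply h
        unfold gi at e1
        unfold gj at e2
        have l1 := p.1.2
        have l2 := p'.1.2
        have ht : t = t' := by
          cases t <;> cases t' <;> simp at e1 ⊢ <;> omega
        subst ht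
        have e3 : (p.1 : ℕ) = p'.1 := by omega
        exact Prod.ext (Prod.ext (Fin.ext e3) (Fin.ext e2)) rfl
      simp [corner]
      have : ((gi m p t + gj m p + 1 : ℕ) : ℝ) ≤ ((gi m p' t' + gj m p' : ℕ) : ℝ) := by
        exact_mod_cast hne
      push_cast at this
      nlinarith

theorem AA_mono {j k : ℕ} (h : j < k) : AA j + ll j ≤ AA k := by
  unfold AA ll
  have h1 : (1 / 2 : ℝ) ^ (k + 1) ≤ (1 / 2) ^ (j + 2) :=
    pow_le_pow_of_le_one (by norm_num) (by norm_num) (by omega)
  have h2 : (1 / 2 : ℝ) ^ (j + 2) = (1 / 2) ^ (j + 1) * (1 / 2) := by ring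
  linarith

theorem BB_mono {j k : ℕ} (h : k < j) : BB j + ll j ≤ BB k := by
  unfold BB ll
  have h1 : (1 / 2 : ℝ) ^ (j + 1) ≤ (1 / 2) ^ (k + 2) :=
    pow_le_pow_of_le_one (by norm_num) (by norm_num) (by omega)
  have h2 : (1 / 2 : ℝ) ^ (j + 2) = (1 / 2) ^ (j + 1) * (1 / 2) := by ring
  have h3 : (1 / 2 : ℝ) ^ (k + 2) = (1 / 2) ^ (k + 1) * (1 / 2) := by ring
  have h4 : (0 : ℝ) < (1 / 2) ^ (k + 1) := by positivity
  linarith

theorem sep_diff (m m' j k : ℕ) (hjk : j ≠ k) (p : Fin m × Fin m) (t : Bool)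
    (p' : Fin m' × Fin m') (t' : Bool)
    (x : P3) (hx : x ∈ cube (corner m k p t) (sd m k)) :
    ∃ i, corner m' j p' t' i + sd m' j < x i := by
  rw [mem_cube] at hx
  have h1 := sd_pos m k
  rcases lt_or_gt_of_ne hjk with h | h
  · refine ⟨0, lt_of_le_of_lt ?_ (hx 0).1⟩
    refine (corner_top0 m' j p' t').trans ((AA_mono h).trans ?_)
    simp [corner]
    positivity
  · refine ⟨1, lt_of_le_of_lt ?_ (hx 1).1⟩
    refine (corner_top1 m' j p' t').trans ((BB_mono h).trans ?_)
    simp [corner]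
    positivity

/-- the contribution of one scale -/
noncomputable def Phi (m k : ℕ) (b : Fin m × Fin m → Bool) (x : P3) : ℝ :=
  ∑ p, ∑ t, Fc (corner m k p t) (sd m k) (b p == t) x

theorem Phi_nonneg (m k : ℕ) (b : Fin m × Fin m → Bool) (x : P3) : 0 ≤ Phi m k b x :=
  Finset.sum_nonneg (fun _ _ => Finset.sum_nonneg (fun _ _ => Fc_nonneg _ _ _ _))

theorem Phi_le (m k : ℕ) (b : Fin m × Fin m → Bool) (x : P3) : Phi m k b x ≤ 8 * m ^ 2 := by
  unfold Phi
  calc _ ≤ ∑ _p : Fin m × Fin m, ∑ _t : Bool, (4 : ℝ) :=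
        Finset.sum_le_sum (fun _ _ => Finset.sum_le_sum (fun _ _ => Fc_le _ _ _ _))
    _ = 8 * m ^ 2 := by
        simp
        ring

/-- the cubes of scale `k` -/
def CC (m k : ℕ) (p : Fin m × Fin m) (t : Bool) : Set P3 := cube (corner m k p t) (sd m k)

theorem Phi_on (m k : ℕ) (b : Fin m × Fin m → Bool) (p : Fin m × Fin m) (t : Bool) (x : P3)
    (hx : x ∈ CC m k p t) : Phi m k b x = if b p = t then 1 else 0 := by
  unfold Phi
  have h0 : ∀ p' t', (p', t') ≠ (p, t) → Fc (corner m k p' t') (sd m k) (b p' == t') x = 0 := by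
    intro p' t' h
    obtain ⟨i, hi⟩ := sep_same m k p p' t t' (Ne.symm h) x hx
    exact Fc_zero _ _ (sd_pos m k).le _ x i hi
  rw [← Finset.sum_product', Finset.sum_eq_single (p, t)]
  · simp only
    by_cases hb : b p = t
    · rw [if_pos hb, beq_iff_eq.mpr hb]
      exact Fc_in_true _ _ (fun i => (corner_pos m k p t i).le) x hx
    · rw [if_neg hb]
      have : (b p == t) = false := by simpa using hb
      rw [this]
      exact Fc_in_false _ _ (fun i => (corner_pos m k p t i).le) x hx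
  · intro y _ hy
    exact h0 y.1 y.2 (by simpa using hy)
  · intro h
    exact absurd (Finset.mem_product.mpr ⟨Finset.mem_univ _, Finset.mem_univ _⟩) h

theorem Phi_off (m k : ℕ) (b b' : Fin m × Fin m → Bool) (x : P3)
    (hx : ∀ p t, x ∉ CC m k p t) : Phi m k b x = Phi m k b' x := by
  unfold Phi
  apply Finset.sum_congr rfl
  intro p _
  apply Finset.sum_congr rfl
  intro t _
  have h1 := Fc_out (corner m k p t) (sd m k) (sd_pos m k).le x (hx p t)
  cases (b p == t) <;> cases (b' p == t) <;> simp [h1]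

theorem Phi_other (m m' j k : ℕ) (hjk : j ≠ k) (b : Fin m' × Fin m' → Bool)
    (p : Fin m × Fin m) (t : Bool) (x : P3) (hx : x ∈ CC m k p t) : Phi m' j b x = 0 := by
  unfold Phi
  apply Finset.sum_eq_zero
  intro p' _
  apply Finset.sum_eq_zero
  intro t' _
  obtain ⟨i, hi⟩ := sep_diff m m' j k hjk p t p' t' x hx
  exact Fc_zero _ _ (sd_pos m' j).le _ x i hi

/-- the atom positions -/
noncomputable def at' (m k : ℕ) (b : Fin m × Fin m → Bool) (p : Fin m × Fin m) (t : Bool)
    (r : Fin 4) : P3 := vert (corner m k p t) (sd m k) (vx (b p == t) r)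

theorem at_pos (m k : ℕ) (b : Fin m × Fin m → Bool) (p : Fin m × Fin m) (t : Bool)
    (r : Fin 4) (i : Fin 3) : 0 < at' m k b p t r i := by
  unfold at' vert
  have := corner_pos m k p t i
  have := sd_pos m k
  split_ifs <;> linarith

theorem at_le (m k : ℕ) (b : Fin m × Fin m → Bool) (p : Fin m × Fin m) (t : Bool)
    (r : Fin 4) (i : Fin 3) : at' m k b p t r i ≤ 1 := by
  unfold at' vert
  have := corner_top_le_one m k p t i
  have := sd_pos m k
  split_ifs <;> linarith

/-- amplitude of scale `k` -/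
noncomputable def cc (m k : ℕ) : ℝ := (1 / 2) ^ (k + 5) / m ^ 2

theorem cc_nonneg (m k : ℕ) : 0 ≤ cc m k := by unfold cc; positivity

/-- the mixing mass of scale `k` -/
noncomputable def WW (m k : ℕ) (b : Fin m × Fin m → Bool) : ℝ :=
  ∑ p, ∑ t, ∑ r, cc m k * ∏ i, at' m k b p t r i

theorem WW_nonneg (m k : ℕ) (b : Fin m × Fin m → Bool) : 0 ≤ WW m k b := by
  unfold WW
  apply Finset.sum_nonneg
  intro p _
  apply Finset.sum_nonneg
  intro t _
  apply Finset.sum_nonneg
  intro r _
  exact mul_nonneg (cc_nonneg m k) (Finset.prod_nonneg (fun i _ => (at_pos m k b p t r i).le))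

theorem WW_le (m k : ℕ) (b : Fin m × Fin m → Bool) : WW m k b ≤ (1 / 2) ^ (k + 2) := by
  unfold WW
  calc _ ≤ ∑ _p : Fin m × Fin m, ∑ _t : Bool, ∑ _r : Fin 4, cc m k * 1 := by
        apply Finset.sum_le_sum
        intro p _
        apply Finset.sum_le_sum
        intro t _
        apply Finset.sum_le_sum
        intro r _
        apply mul_le_mul_of_nonneg_left _ (cc_nonneg m k)
        apply Finset.prod_le_one
        · intro i _; exact (at_pos m k b p t r i).le
        · intro i _; exact at_le m k b p t r i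
    _ = (m : ℝ) ^ 2 * (8 * cc m k) := by
        simp
        ring
    _ ≤ (1 / 2) ^ (k + 2) := by
        unfold cc
        rcases Nat.eq_zero_or_pos m with rfl | hm
        · simp
        · have hm' : (0 : ℝ) < m := by exact_mod_cast hm
          apply le_of_eq
          field_simp
          ring

theorem WW_indep (m k : ℕ) (b b' : Fin m × Fin m → Bool) : WW m k b = WW m k b' := by
  unfold WW
  apply Finset.sum_congr rfl
  intro p _
  simp_rw [← Finset.mul_sum]
  congr 1
  rw [Fintype.sum_bool, Fintype.sum_bool]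
  unfold at'
  have hA := vert_mass (corner m k p true) (sd m k)
  have hB := vert_mass (corner m k p false) (sd m k)
  cases b p <;> cases b' p <;> simp only [beq_self_eq_true] <;> simp <;> linarith

end Pool.Agent.KS6_98.SMU
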